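import Mathlib
import Pool.Agent.Y877.Core
import Pool.Agent.Y877.GqA

/-! The coloured theorem at the scale `x`; local conditions only at the primes which do not divide `q`
(after helper877's `coreX` and `coreXG`). -/

set_option autoImplicit false

namespace Pool.Agent.Helper22K9

open Finset Filter Topology Pool.Agent.TH899.UG.TD
open Pool.Agent.Y827.GS (Adf)
open Pool.Agent.Y877 (coreT adm_q)

/-- from a set of shifts to forms in an arithmetic progression -/
theorem adm_qq (q a : ℕ) (hqa : a.Coprime q) (p : ℕ) (hp : p.Prime) {T K : ℕ} (A : Fin T → Fin K → ℕ)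
    (h : ¬ p ∣ q → ∃ r : ℤ, ∀ g i, ¬ (p : ℤ) ∣ (A g i : ℤ) + r) :
    ∃ n : ℤ, ∀ g i, ¬ ((p : ℤ) ∣ q * n + ((a + q * A g i : ℕ) : ℤ)) := by
  by_cases hpq : p ∣ q
  · refine ⟨0, fun g i h => ?_⟩
    have hpq' : (p : ℤ) ∣ q := by exact_mod_cast hpq
    have h1 : (p : ℤ) ∣ a := by
      have h2 : (a : ℤ) = (q * 0 + ((a + q * A g i : ℕ) : ℤ)) - q * (A g i) := by
        push_cast; ring
      rw [h2]
      exact dvd_sub h (hpq'.mul_right _)
    have h2 : p ∣ a := by exact_mod_cast h1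
    have h4 := Nat.dvd_gcd h2 hpq
    rw [hqa] at h4
    exact hp.one_lt.ne' (Nat.dvd_one.1 h4)
  · exact adm_q q a hqa p hp A (h hpq)

open Classical in
/-- **The coloured theorem at the scale `x`.** -/
theorem coreXq : ∃ c : ℝ, 0 < c ∧ c < 1 ∧ ∀ T M : ℕ, 1 ≤ T → (4 - c) * M < T →
    ∀ s : ℝ, 0 < s → ∃ K C : ℕ, 1 ≤ K ∧ ∀ q : ℕ, 1 ≤ q → ∀ η : ℝ, 0 < η →
    ∀ᶠ x : ℕ in atTop, ∀ a : ℕ, a.Coprime q → ∀ A : Fin T → Fin K → ℕ,
      (Function.Injective (fun z : Fin T × Fin K => A z.1 z.2)) →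
      (∀ g i, C * (q ^ 2 * A g i) ≤ x) →
      (∀ p : ℕ, p.Prime → ¬ p ∣ q → ∃ n : ℤ, ∀ g i, ¬ ((p : ℤ) ∣ (A g i : ℤ) + n)) →
      ∃ (S : Finset (Fin T)) (σ : Fin T → Fin K), M + 1 ≤ S.card ∧
        ∀ i ∈ S, ∀ j ∈ S, A i (σ i) < A j (σ j) →
          (x : ℝ) ^ (1 - η) ≤ prq s x q a (q * (A j (σ j) - A i (σ i))) := by
  obtain ⟨c, hc, hc1, HC⟩ := coreT
  refine ⟨c, hc, hc1, fun T M hT hTM s hs => ?_⟩
  obtain ⟨s', hs'⟩ : ∃ s', s' = min (s / 2) 1 := ⟨_, rfl⟩
  have hs'0 : 0 < s' := by rw [hs']; positivity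
  have hs'1 : s' ≤ 1 := by rw [hs']; exact min_le_right _ _
  have hs'2 : s' ≤ s / 2 := by rw [hs']; exact min_le_left _ _
  obtain ⟨K, hK, HC⟩ := HC T M hT hTM s' hs'0 hs'1
  obtain ⟨R₃, hR₃⟩ := exists_nat_ge (4 / s)
  refine ⟨K, R₃ + 1, hK, fun q hq η hη => ?_⟩
  have hdiv : Tendsto (fun x : ℕ => x / q + 1) atTop atTop :=
    tendsto_atTop.2 fun t => by
      filter_upwards [eventually_ge_atTop (t * q)] with x hx
      have : t ≤ x / q := (Nat.le_div_iff_mul_le (by omega)).2 hx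
      omega
  obtain ⟨R₄, hR₄⟩ := exists_nat_ge (12 * (q : ℝ) / s)
  filter_upwards [hdiv.eventually (HC q hq (min (η / 2) 1) (by positivity) (min_le_right _ _)),
    expo q hq η hη, eventually_ge_atTop (q * q), eventually_ge_atTop R₄, eventually_ge_atTop 1] with
    x hx hexp hxq hx4 hx1 a₀ ha₀ A hinj hAx hadm
  -- the residue
  obtain ⟨a, ha⟩ : ∃ a, a = a₀ % q := ⟨_, rfl⟩
  have haq : a < q := by rw [ha]; exact Nat.mod_lt _ (by omega)
  have haco : a.Coprime q := by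
    rw [ha]
    show Nat.gcd (a₀ % q) q = 1
    rw [← Nat.gcd_rec, Nat.gcd_comm]
    exact ha₀
  have haa : a ≡ a₀ [MOD q] := by rw [ha]; exact Nat.mod_modEq _ _
  obtain ⟨y, hy⟩ : ∃ y, y = x / q + 1 := ⟨_, rfl⟩
  rw [← hy] at hx hexp
  have hqy : x ≤ q * y := by
    rw [hy]
    exact (Nat.lt_mul_div_succ x (by omega : 0 < q)).le
  have hqy2 : q * y ≤ x + q := by
    rw [hy, mul_add, mul_one]
    have := Nat.mul_div_le x q
    omega
  have hqley : q ≤ y := by
    have : q ≤ x / q := (Nat.le_div_iff_mul_le (by omega)).2 hxq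
    omega
  -- sizes
  have hq1 : (1 : ℝ) ≤ q := by exact_mod_cast hq
  have hx0 : (0 : ℝ) ≤ x := Nat.cast_nonneg _
  have hqq : ∀ g i, q * A g i ≤ q ^ 2 * A g i := by
    intro g i
    have h1 : q ≤ q ^ 2 := by nlinarith
    exact Nat.mul_le_mul_right _ h1
  have hbigr : ∀ g i, ((q * A g i : ℕ) : ℝ) ≤ s / 4 * x := by
    intro g i
    have h1 : (R₃ : ℝ) * ((q * A g i : ℕ) : ℝ) ≤ x := by
      have : R₃ * (q * A g i) ≤ x :=
        (Nat.mul_le_mul (by omega : R₃ ≤ R₃ + 1) (hqq g i)).trans (hAx g i)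
      exact_mod_cast this
    have h2 : 4 / s * ((q * A g i : ℕ) : ℝ) ≤ x :=
      (mul_le_mul_of_nonneg_right hR₃ (Nat.cast_nonneg _)).trans h1
    have h4 : 4 / s * ((q * A g i : ℕ) : ℝ) = 4 * ((q * A g i : ℕ) : ℝ) / s := by ring
    rw [h4, div_le_iff₀ hs] at h2
    linarith
  have hbign : ∀ g i, q * A g i ≤ y := by
    intro g i
    have h1 : q * A g i ≤ x / q := by
      rw [Nat.le_div_iff_mul_le (by omega)]
      have h2 : q * A g i * q = 1 * (q ^ 2 * A g i) := by ring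
      rw [h2]
      exact (Nat.mul_le_mul_right _ (by omega)).trans (hAx g i)
    omega
  have hqs : 3 * (q : ℝ) ≤ s / 4 * x := by
    have h1 : 12 * (q : ℝ) / s ≤ x := hR₄.trans (by exact_mod_cast hx4)
    rw [div_le_iff₀ hs] at h1
    linarith
  obtain ⟨S, σ, hS, hcnt⟩ := hx (fun g i => a + q * A g i) (by
      intro z z' h
      apply hinj
      have h2 : a + q * A z.1 z.2 = a + q * A z'.1 z'.2 := h
      exact Nat.eq_of_mul_eq_mul_left (by omega : 0 < q) (Nat.add_left_cancel h2))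
    (fun g i => by
      have := hbign g i
      show a + q * A g i ≤ 9 * y
      omega)
    (fun p hp => adm_qq q a haco p hp A (hadm p hp))
  refine ⟨S, σ, hS, fun i hi j hj hij => ?_⟩
  refine hexp.trans (hcnt.trans ?_)
  rw [Nat.cast_le]
  refine prq_ge s x q a₀ (q * (A j (σ j) - A i (σ i))) a (A i (σ i)) hq _ haa fun n hn => ?_
  obtain ⟨-, h3, h4, h5⟩ := mem_filter.1 hn
  have h7 : q * n + (a + q * A i (σ i)) + q * (A j (σ j) - A i (σ i)) =
      q * n + (a + q * A j (σ j)) := by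
    have e2 : q * A i (σ i) + q * (A j (σ j) - A i (σ i)) = q * A j (σ j) := by
      rw [← Nat.mul_add, Nat.add_sub_cancel' hij.le]
    rw [← e2]; ring
  rw [h7]
  refine ⟨h5 i hi, h5 j hj, ?_, ?_⟩
  · have h8 : (x : ℝ) ≤ q * y := by exact_mod_cast hqy
    exact h8.trans (mul_le_mul_of_nonneg_left h3 (by linarith))
  · have h8 := hbigr j (σ j)
    have h9 : (q : ℝ) * n ≤ (1 + s') * (x + q) := by
      have h10 : (q : ℝ) * y ≤ x + q := by exact_mod_cast hqy2
      calc (q : ℝ) * n ≤ q * ((1 + s') * y) := mul_le_mul_of_nonneg_left h4 (by linarith)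
        _ = (1 + s') * (q * y) := by ring
        _ ≤ (1 + s') * (x + q) := mul_le_mul_of_nonneg_left h10 (by linarith)
    have h10 : (a : ℝ) ≤ q := by exact_mod_cast haq.le
    have h11 : ((q * n + (a + q * A j (σ j)) : ℕ) : ℝ) =
        (q : ℝ) * n + (a + ((q * A j (σ j) : ℕ) : ℝ)) := by push_cast; ring
    rw [h11]
    nlinarith

open Classical in
/-- **The coloured theorem at the scale `x`.** -/
theorem coreXGq (T M : ℕ) (hT : 1 ≤ T) (hTM : (18 / 5 : ℝ) * M < T) : ∃ K : ℕ, 1 ≤ K ∧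
    ∀ q : ℕ, 1 ≤ q → ∀ η : ℝ, 0 < η →
    ∀ᶠ x : ℕ in atTop, ∀ a : ℕ, a.Coprime q → ∀ A : Fin T → Fin K → ℕ,
      (Function.Injective (fun z : Fin T × Fin K => A z.1 z.2)) →
      (∀ g i, 2 * (q ^ 2 * A g i) ≤ x) →
      (∀ p : ℕ, p.Prime → ¬ p ∣ q → ∃ n : ℤ, ∀ g i, ¬ ((p : ℤ) ∣ (A g i : ℤ) + n)) →
      ∃ (S : Finset (Fin T)) (σ : Fin T → Fin K), M + 1 ≤ S.card ∧
        ∀ i ∈ S, ∀ j ∈ S, A i (σ i) < A j (σ j) →
          (x : ℝ) ^ (1 - η) ≤ prq 8 x q a (q * (A j (σ j) - A i (σ i))) := by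
  obtain ⟨K, hK, H⟩ := Pool.Agent.Y877.GQ.lamW T M hT hTM
  refine ⟨K, hK, fun q hq η hη => ?_⟩
  have hdiv : Tendsto (fun x : ℕ => 16 * (x / q + 1)) atTop atTop :=
    tendsto_atTop.2 fun t => by
      filter_upwards [eventually_ge_atTop (t * q)] with x hx
      have : t ≤ x / q := (Nat.le_div_iff_mul_le (by omega)).2 hx
      omega
  filter_upwards [hdiv.eventually (H q (min (η / 2) 1) (by positivity)),
    expo q hq η hη, eventually_ge_atTop (q * q), eventually_ge_atTop (100 * q), eventually_ge_atTop 1] with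
    x hx hexp hxq hx4 hx1 a₀ ha₀ A hinj hAx hadm
  -- the residue
  obtain ⟨a, ha⟩ : ∃ a, a = a₀ % q := ⟨_, rfl⟩
  have haq : a < q := by rw [ha]; exact Nat.mod_lt _ (by omega)
  have haco : a.Coprime q := by
    rw [ha]
    show Nat.gcd (a₀ % q) q = 1
    rw [← Nat.gcd_rec, Nat.gcd_comm]
    exact ha₀
  have haa : a ≡ a₀ [MOD q] := by rw [ha]; exact Nat.mod_modEq _ _
  obtain ⟨y, hy⟩ : ∃ y, y = x / q + 1 := ⟨_, rfl⟩
  rw [← hy] at hx hexp
  have hqy : x ≤ q * y := by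
    rw [hy]
    exact (Nat.lt_mul_div_succ x (by omega : 0 < q)).le
  have hqy2 : q * y ≤ x + q := by
    rw [hy, mul_add, mul_one]
    have := Nat.mul_div_le x q
    omega
  have hqley : q ≤ y := by
    have : q ≤ x / q := (Nat.le_div_iff_mul_le (by omega)).2 hxq
    omega
  have hy1 : 1 ≤ y := by omega
  have hqq : ∀ g i, q * A g i ≤ q ^ 2 * A g i := by
    intro g i
    have h1 : q ≤ q ^ 2 := by nlinarith
    exact Nat.mul_le_mul_right _ h1
  have hbig1 : ∀ g i, 2 * (q * A g i) ≤ x := fun g i =>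
    (Nat.mul_le_mul_left 2 (hqq g i)).trans (hAx g i)
  have hbign : ∀ g i, q * A g i ≤ y := by
    intro g i
    have h1 : q * A g i ≤ x / q := by
      rw [Nat.le_div_iff_mul_le (by omega)]
      have h2 : q * A g i * q = 1 * (q ^ 2 * A g i) := by ring
      rw [h2]
      exact (Nat.mul_le_mul_right _ (by omega)).trans (hAx g i)
    omega
  obtain ⟨S, σ, hS, hcnt⟩ := hx (fun g i => ((q : ℤ), ((a + q * A g i : ℕ) : ℤ))) (by
      intro z z' h
      apply hinj
      have h2 : ((a + q * A z.1 z.2 : ℕ) : ℤ) = ((a + q * A z'.1 z'.2 : ℕ) : ℤ) := (Prod.ext_iff.1 h).2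
      have h3 : a + q * A z.1 z.2 = a + q * A z'.1 z'.2 := by exact_mod_cast h2
      exact Nat.eq_of_mul_eq_mul_left (by omega : 0 < q) (Nat.add_left_cancel h3))
    (fun g i => by
      have h1 := hbign g i
      refine ⟨?_, ?_, ?_, ?_, ?_⟩
      · show (q : ℤ) ≠ 0
        omega
      · show |(q : ℤ)| ≤ q
        rw [Nat.abs_cast]
      · show |((a + q * A g i : ℕ) : ℤ)| ≤ ((16 * y : ℕ) : ℤ)
        rw [Nat.abs_cast]
        have : a + q * A g i ≤ 16 * y := by omega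
        exact_mod_cast this
      · show IsCoprime (q : ℤ) ((a + q * A g i : ℕ) : ℤ)
        rw [Nat.isCoprime_iff_coprime]
        have h3 : Nat.Coprime q a := haco.symm
        exact (Nat.coprime_add_mul_left_right q a (A g i)).2 h3
      · intro t ht1 ht2
        show ((16 * y : ℕ) : ℝ) / 24 ≤ ((q : ℤ) : ℝ) * t + (((a + q * A g i : ℕ) : ℤ) : ℝ)
        have h4 : (1 : ℝ) ≤ q := by exact_mod_cast hq
        have h5 : (0 : ℝ) ≤ (((a + q * A g i : ℕ) : ℤ) : ℝ) := by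
          have : (0 : ℝ) ≤ ((a + q * A g i : ℕ) : ℝ) := Nat.cast_nonneg _
          exact_mod_cast this
        have h6 : (0 : ℝ) ≤ y := Nat.cast_nonneg _
        have h7 : ((q : ℤ) : ℝ) = (q : ℝ) := by push_cast; rfl
        rw [h7]
        push_cast at ht1 ⊢
        have h8 : (y : ℝ) ≤ t := by linarith
        have h9 : (y : ℝ) ≤ q * t := by nlinarith
        push_cast at h5
        linarith)
    (fun p hp _ => adm_qq q a haco p hp A (hadm p hp))
  refine ⟨S, σ, hS, fun i hi j hj hij => ?_⟩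
  have hexp' : (x : ℝ) ^ (1 - η) ≤ ((16 * y : ℕ) : ℝ) ^ (1 - min (η / 2) 1) := by
    refine hexp.trans ?_
    apply Real.rpow_le_rpow (Nat.cast_nonneg _)
    · push_cast
      have : (0 : ℝ) ≤ y := Nat.cast_nonneg _
      linarith
    · have := min_le_right (η / 2) 1
      linarith
  refine hexp'.trans (hcnt.trans ?_)
  rw [Nat.cast_le]
  refine prq_ge 8 x q a₀ (q * (A j (σ j) - A i (σ i))) a (A i (σ i)) hq _ haa fun n hn => ?_
  obtain ⟨-, h3, h4, h5⟩ := mem_filter.1 hn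
  have h7 : q * n + (a + q * A i (σ i)) + q * (A j (σ j) - A i (σ i)) =
      q * n + (a + q * A j (σ j)) := by
    have e2 : q * A i (σ i) + q * (A j (σ j) - A i (σ i)) = q * A j (σ j) := by
      rw [← Nat.mul_add, Nat.add_sub_cancel' hij.le]
    rw [← e2]; ring
  rw [h7]
  have key : ∀ k ∈ S, (q * n + (a + q * A k (σ k))).Prime := by
    intro k hk
    have h8 := h5 k hk
    have h9 : ((q : ℤ) * (n : ℤ) + ((a + q * A k (σ k) : ℕ) : ℤ)).toNat = q * n + (a + q * A k (σ k)) := by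
      have : (q : ℤ) * (n : ℤ) + ((a + q * A k (σ k) : ℕ) : ℤ) = ((q * n + (a + q * A k (σ k)) : ℕ) : ℤ) := by
        push_cast; ring
      rw [this, Int.toNat_natCast]
    change ((q : ℤ) * (n : ℤ) + ((a + q * A k (σ k) : ℕ) : ℤ)).toNat.Prime at h8
    rw [h9] at h8
    exact h8
  refine ⟨key i hi, key j hj, ?_, ?_⟩
  · have h8 : y ≤ n := by omega
    have h9 : x ≤ q * n := hqy.trans (Nat.mul_le_mul_left q h8)
    exact_mod_cast h9
  · have h8 : 100 * (q * n) ≤ 816 * (q * y) := by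
      have : 100 * n ≤ 816 * y := by omega
      calc 100 * (q * n) = q * (100 * n) := by ring
        _ ≤ q * (816 * y) := Nat.mul_le_mul_left q this
        _ = 816 * (q * y) := by ring
    have h9 := hbig1 j (σ j)
    have h10 : q * n + (a + q * A j (σ j)) ≤ 9 * x := by omega
    have h11 : ((q * n + (a + q * A j (σ j)) : ℕ) : ℝ) ≤ ((9 * x : ℕ) : ℝ) := by exact_mod_cast h10
    refine h11.trans (le_of_eq ?_)
    push_cast
    ring

end Pool.Agent.Helper22K9
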