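import Mathlib

/-! Numbers of ordered cliques: the inequalities of Moon and Moser, and the edge density of a graph with few
cliques on `T` vertices (helper22). -/

set_option autoImplicit false

namespace Pool.Agent.Helper22K9

open Finset

variable {α : Type}

open Classical in
/-- ordered cliques (with values in `V`) of the relation `R` -/
noncomputable def clq (V : Finset α) (R : α → α → Prop) (s : ℕ) : Finset (Fin s → α) :=
  (Fintype.piFinset (fun _ => V)).filter (fun f => ∀ i j, i ≠ j → R (f i) (f j))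

open Classical in
/-- common neighbours -/
noncomputable def cn (V : Finset α) (R : α → α → Prop) {s : ℕ} (f : Fin s → α) : Finset α :=
  V.filter (fun v => ∀ i, R (f i) v)

theorem mem_clq {V : Finset α} {R : α → α → Prop} {s : ℕ} {f : Fin s → α} :
    f ∈ clq V R s ↔ (∀ i, f i ∈ V) ∧ ∀ i j, i ≠ j → R (f i) (f j) := by
  classical
  simp [clq, Fintype.mem_piFinset]

theorem mem_cn {V : Finset α} {R : α → α → Prop} {s : ℕ} {f : Fin s → α} {v : α} :
    v ∈ cn V R f ↔ v ∈ V ∧ ∀ i, R (f i) v := by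
  classical
  simp [cn]

/-- insertion of a vertex at the position `k` -/
theorem sum_ext (V : Finset α) (R : α → α → Prop) (hR : ∀ x y, R x y → R y x) (s : ℕ) (k : Fin (s + 1))
    (F : (Fin s → α) → ℝ) :
    ∑ g ∈ clq V R (s + 1), F (fun i => g (k.succAbove i)) =
      ∑ f ∈ clq V R s, ((cn V R f).card : ℝ) * F f := by
  classical
  have h1 : ∀ f ∈ clq V R s, ((cn V R f).card : ℝ) * F f = ∑ _v ∈ cn V R f, F f := by
    intro f _
    rw [sum_const, nsmul_eq_mul]
  rw [sum_congr rfl h1, sum_sigma']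
  refine sum_bij' (fun g _ => (⟨fun i => g (k.succAbove i), g k⟩ : Σ _ : Fin s → α, α))
    (fun z _ => k.insertNth z.2 z.1) ?_ ?_ ?_ ?_ ?_
  · intro g hg
    rw [mem_clq] at hg
    rw [mem_sigma]
    refine ⟨mem_clq.2 ⟨fun i => hg.1 _, fun i j hij => hg.2 _ _ fun h => hij (k.succAbove_right_injective h)⟩,
      mem_cn.2 ⟨hg.1 k, fun i => hg.2 _ _ (k.succAbove_ne i)⟩⟩
  · rintro ⟨f, v⟩ hz
    rw [mem_sigma] at hz
    obtain ⟨h1, h2⟩ := hz
    rw [mem_clq] at h1
    rw [mem_cn] at h2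
    rw [mem_clq]
    refine ⟨fun i => ?_, fun i j hij => ?_⟩
    · rcases Fin.eq_self_or_eq_succAbove k i with rfl | ⟨i', rfl⟩
      · simpa using h2.1
      · simpa using h1.1 i'
    · rcases Fin.eq_self_or_eq_succAbove k i with rfl | ⟨i', rfl⟩
      · rcases Fin.eq_self_or_eq_succAbove i j with rfl | ⟨j', rfl⟩
        · exact absurd rfl hij
        · simpa using hR _ _ (h2.2 j')
      · rcases Fin.eq_self_or_eq_succAbove k j with rfl | ⟨j', rfl⟩
        · simpa using h2.2 i'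
        · simpa using h1.2 i' j' fun h => hij (by rw [h])
  · intro g _
    funext i
    rcases Fin.eq_self_or_eq_succAbove k i with rfl | ⟨i', rfl⟩
    · simp
    · simp
  · rintro ⟨f, v⟩ _
    simp
  · intro g _
    rfl

theorem card_ext (V : Finset α) (R : α → α → Prop) (hR : ∀ x y, R x y → R y x) (s : ℕ) :
    ((clq V R (s + 1)).card : ℝ) = ∑ f ∈ clq V R s, ((cn V R f).card : ℝ) := by
  have h := sum_ext V R hR s 0 (fun _ => 1)
  simpa using h

/-- the number of the positions -/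
theorem cn_ge (V : Finset α) (R : α → α → Prop) (s : ℕ) (g : Fin (s + 1) → α) :
    ∑ k : Fin (s + 1), (cn V R (fun i => g (k.succAbove i))).card ≤
      s * (cn V R g).card + V.card := by
  classical
  have e1 : ∀ k : Fin (s + 1), (cn V R (fun i => g (k.succAbove i))).card =
      ∑ v ∈ V, if (∀ i, R (g (k.succAbove i)) v) then 1 else 0 := by
    intro k
    rw [cn, card_filter]
  have e2 : (cn V R g).card = ∑ v ∈ V, if (∀ i, R (g i) v) then 1 else 0 := by
    rw [cn, card_filter]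
  rw [sum_congr rfl fun k _ => e1 k, e2, sum_comm, mul_sum, card_eq_sum_ones, ← sum_add_distrib]
  refine sum_le_sum fun v _ => ?_
  by_cases hv : ∀ i, R (g i) v
  · rw [if_pos hv]
    calc _ ≤ ∑ _k : Fin (s + 1), 1 := sum_le_sum fun k _ => by split_ifs <;> omega
      _ = s * 1 + 1 := by simp
  · rw [if_neg hv]
    push Not at hv
    obtain ⟨k₀, hk₀⟩ := hv
    rw [mul_zero, zero_add]
    calc _ ≤ ∑ k : Fin (s + 1), (if k = k₀ then 1 else 0) := by
          refine sum_le_sum fun k _ => ?_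
          by_cases hk : k = k₀
          · rw [if_pos hk]; split_ifs <;> omega
          · rw [if_neg hk, if_neg]
            intro h
            rcases Fin.eq_self_or_eq_succAbove k k₀ with h1 | ⟨i', h1⟩
            · exact hk h1.symm
            · exact hk₀ (h1 ▸ h i')
      _ ≤ 1 := by simp

/-- **Moon and Moser** -/
theorem moon (V : Finset α) (R : α → α → Prop) (hR : ∀ x y, R x y → R y x) (s : ℕ) :
    ((s : ℝ) + 1) * ((clq V R (s + 1)).card : ℝ) ^ 2 ≤
      (s * ((clq V R (s + 2)).card : ℝ) + V.card * ((clq V R (s + 1)).card : ℝ)) *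
        ((clq V R s).card : ℝ) := by
  classical
  have h1 : ∑ g ∈ clq V R (s + 1), ∑ k : Fin (s + 1), ((cn V R (fun i => g (k.succAbove i))).card : ℝ) ≤
      s * ((clq V R (s + 2)).card : ℝ) + V.card * ((clq V R (s + 1)).card : ℝ) := by
    calc _ ≤ ∑ g ∈ clq V R (s + 1), ((s : ℝ) * ((cn V R g).card : ℝ) + V.card) := by
          refine sum_le_sum fun g _ => ?_
          exact_mod_cast cn_ge V R s g
      _ = _ := by
          rw [sum_add_distrib, ← mul_sum, ← card_ext V R hR (s + 1), sum_const, nsmul_eq_mul]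
          ring
  rw [sum_comm] at h1
  have h2 : ∀ k : Fin (s + 1), ∑ g ∈ clq V R (s + 1), ((cn V R (fun i => g (k.succAbove i))).card : ℝ) =
      ∑ f ∈ clq V R s, ((cn V R f).card : ℝ) ^ 2 := by
    intro k
    rw [sum_ext V R hR s k (fun f => ((cn V R f).card : ℝ))]
    refine sum_congr rfl fun f _ => by ring
  rw [sum_congr rfl fun k _ => h2 k, sum_const, card_univ, Fintype.card_fin, nsmul_eq_mul] at h1
  push_cast at h1
  have h3 : ((clq V R (s + 1)).card : ℝ) ^ 2 ≤
      ((clq V R s).card : ℝ) * ∑ f ∈ clq V R s, ((cn V R f).card : ℝ) ^ 2 := by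
    rw [card_ext V R hR s]
    exact sq_sum_le_card_mul_sum_sq
  have h4 : (0 : ℝ) ≤ ((clq V R s).card : ℝ) := Nat.cast_nonneg _
  have h5 : (0 : ℝ) ≤ (s : ℝ) + 1 := by positivity
  calc _ ≤ ((s : ℝ) + 1) * (((clq V R s).card : ℝ) * ∑ f ∈ clq V R s, ((cn V R f).card : ℝ) ^ 2) :=
        mul_le_mul_of_nonneg_left h3 h5
    _ = (((s : ℝ) + 1) * ∑ f ∈ clq V R s, ((cn V R f).card : ℝ) ^ 2) * ((clq V R s).card : ℝ) := by ring
    _ ≤ _ := mul_le_mul_of_nonneg_right h1 h4

theorem card_clq_one (V : Finset α) (R : α → α → Prop) : (clq V R 1).card = V.card := by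
  classical
  refine card_bij' (fun f _ => f 0) (fun v _ => fun _ => v) ?_ ?_ ?_ ?_
  · intro f hf
    exact (mem_clq.1 hf).1 0
  · intro v hv
    refine mem_clq.2 ⟨fun _ => hv, fun i j hij => absurd (Subsingleton.elim i j) hij⟩
  · intro f _
    funext i
    rw [Subsingleton.elim i 0]
  · intro v _
    rfl

theorem clq_succ_le (V : Finset α) (R : α → α → Prop) (hR : ∀ x y, R x y → R y x) (s : ℕ) :
    ((clq V R (s + 1)).card : ℝ) ≤ V.card * ((clq V R s).card : ℝ) := by
  classical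
  rw [card_ext V R hR s]
  calc _ ≤ ∑ _f ∈ clq V R s, (V.card : ℝ) := by
        refine sum_le_sum fun f _ => ?_
        rw [Nat.cast_le]
        exact card_le_card (filter_subset _ _)
    _ = _ := by rw [sum_const, nsmul_eq_mul, mul_comm]

/-- the growth of the number of cliques -/
theorem growth (V : Finset α) (R : α → α → Prop) (hR : ∀ x y, R x y → R y x) (q : ℝ)
    (hq : ((clq V R 2).card : ℝ) = (1 - q) * (V.card : ℝ) ^ 2) (s : ℕ) :
    (1 - ((s : ℝ) + 1) * q) * (V.card * ((clq V R (s + 1)).card : ℝ)) ≤ ((clq V R (s + 2)).card : ℝ) := by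
  induction s with
  | zero =>
    rw [hq, zero_add, card_clq_one]
    push_cast
    nlinarith
  | succ s ih =>
    have hm := moon V R hR (s + 1)
    have h0 : (0 : ℝ) ≤ ((clq V R (s + 1)).card : ℝ) := Nat.cast_nonneg _
    have h1 : (0 : ℝ) ≤ ((clq V R (s + 2)).card : ℝ) := Nat.cast_nonneg _
    have h2 : (0 : ℝ) ≤ ((clq V R (s + 3)).card : ℝ) := Nat.cast_nonneg _
    have h3 := clq_succ_le V R hR (s + 1)
    have h4 := clq_succ_le V R hR (s + 2)
    have hn : (0 : ℝ) ≤ (V.card : ℝ) := Nat.cast_nonneg _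
    have hs : (0 : ℝ) ≤ (s : ℝ) := Nat.cast_nonneg _
    rcases h0.eq_or_lt with h00 | h00
    · -- no cliques
      have h5 : ((clq V R (s + 2)).card : ℝ) = 0 := by
        apply le_antisymm _ h1
        rw [← h00, mul_zero] at h3
        exact h3
      show (1 - (((s + 1 : ℕ) : ℝ) + 1) * q) * ((V.card : ℝ) * ((clq V R (s + 2)).card : ℝ)) ≤
        ((clq V R (s + 3)).card : ℝ)
      rw [h5, mul_zero, mul_zero]
      exact h2
    · show (1 - (((s + 1 : ℕ) : ℝ) + 1) * q) * ((V.card : ℝ) * ((clq V R (s + 2)).card : ℝ)) ≤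
        ((clq V R (s + 3)).card : ℝ)
      have hm' : (((s + 1 : ℕ) : ℝ) + 1) * ((clq V R (s + 2)).card : ℝ) ^ 2 ≤
          (((s + 1 : ℕ) : ℝ) * ((clq V R (s + 3)).card : ℝ) + V.card * ((clq V R (s + 2)).card : ℝ)) *
            ((clq V R (s + 1)).card : ℝ) := hm
      push_cast at hm' ih ⊢
      generalize ((clq V R (s + 1)).card : ℝ) = a at *
      generalize ((clq V R (s + 2)).card : ℝ) = b at *
      generalize ((clq V R (s + 3)).card : ℝ) = c at *
      generalize (V.card : ℝ) = n at *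
      generalize (s : ℝ) = σ at *
      -- multiply the induction hypothesis by b
      have k1 : (1 - (σ + 1) * q) * (n * a) * b ≤ b * b := mul_le_mul_of_nonneg_right ih h1
      have k2 : (σ + 1) * (1 - (σ + 1 + 1) * q) * (n * b) * a ≤ (σ + 1) * c * a := by
        nlinarith
      have k3 : (σ + 1) * ((1 - (σ + 1 + 1) * q) * (n * b)) ≤ (σ + 1) * c := by
        have := le_of_mul_le_mul_right k2 h00
        nlinarith
      exact le_of_mul_le_mul_left k3 (by linarith)

/-- many cliques, if the density is large -/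
theorem many (V : Finset α) (R : α → α → Prop) (hR : ∀ x y, R x y → R y x) (q : ℝ) (hq0 : 0 ≤ q)
    (hq : ((clq V R 2).card : ℝ) = (1 - q) * (V.card : ℝ) ^ 2) (t : ℕ) (ht : ((t : ℝ) + 1) * q ≤ 1)
    (s : ℕ) (hs : s ≤ t) :
    (∏ i ∈ range s, (1 - ((i : ℝ) + 1) / ((t : ℝ) + 1))) * (V.card : ℝ) ^ (s + 1) ≤
      ((clq V R (s + 1)).card : ℝ) := by
  have hn : (0 : ℝ) ≤ (V.card : ℝ) := Nat.cast_nonneg _
  have ht0 : (0 : ℝ) < (t : ℝ) + 1 := by positivity
  induction s with
  | zero => simp [card_clq_one]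
  | succ s ih =>
    have ih' := ih (by omega)
    have hg := growth V R hR q hq s
    have hst : ((s : ℝ) + 1) ≤ (t : ℝ) + 1 := by
      have : (s : ℝ) ≤ t := by exact_mod_cast (by omega : s ≤ t)
      linarith
    have h1 : 1 - ((s : ℝ) + 1) / ((t : ℝ) + 1) ≤ 1 - ((s : ℝ) + 1) * q := by
      have : ((s : ℝ) + 1) * q ≤ ((s : ℝ) + 1) / ((t : ℝ) + 1) := by
        rw [le_div_iff₀ ht0]
        have : (0 : ℝ) ≤ (s : ℝ) + 1 := by positivity
        nlinarith
      linarith
    have h2 : 0 ≤ 1 - ((s : ℝ) + 1) / ((t : ℝ) + 1) := by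
      rw [sub_nonneg, div_le_one ht0]; exact hst
    rw [prod_range_succ]
    calc _ = (1 - ((s : ℝ) + 1) / ((t : ℝ) + 1)) * ((V.card : ℝ) *
          ((∏ i ∈ range s, (1 - ((i : ℝ) + 1) / ((t : ℝ) + 1))) * (V.card : ℝ) ^ (s + 1))) := by ring
      _ ≤ (1 - ((s : ℝ) + 1) / ((t : ℝ) + 1)) * ((V.card : ℝ) * ((clq V R (s + 1)).card : ℝ)) := by
          gcongr
      _ ≤ (1 - ((s : ℝ) + 1) * q) * ((V.card : ℝ) * ((clq V R (s + 1)).card : ℝ)) := by
          gcongr
      _ ≤ _ := hg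

/-- **The density of the pairs outside `R`**, if there are few cliques on `t + 2` vertices. -/
theorem dens (t : ℕ) : ∃ C : ℝ, 0 < C ∧ ∀ (α : Type) (V : Finset α) (R : α → α → Prop),
    (∀ x y, R x y → R y x) → ∀ θ : ℝ, ((clq V R (t + 2)).card : ℝ) ≤ θ * (V.card : ℝ) ^ (t + 2) →
    ((clq V R 2).card : ℝ) ≤ (1 - 1 / ((t : ℝ) + 1) + C * θ) * (V.card : ℝ) ^ 2 := by
  obtain ⟨P, hP⟩ : ∃ P : ℝ, P = ∏ i ∈ range t, (1 - ((i : ℝ) + 1) / ((t : ℝ) + 1)) := ⟨_, rfl⟩
  have ht0 : (0 : ℝ) < (t : ℝ) + 1 := by positivity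
  have hP0 : 0 < P := by
    rw [hP]
    refine prod_pos fun i hi => ?_
    have hi' := mem_range.1 hi
    rw [sub_pos, div_lt_one ht0]
    have : (i : ℝ) < t := by exact_mod_cast hi'
    linarith
  refine ⟨1 / (((t : ℝ) + 1) * P), by positivity, ?_⟩
  intro α V R hR θ hθ
  rcases Nat.eq_zero_or_pos V.card with h0 | h0
  · have h1 : ((clq V R 2).card : ℝ) ≤ V.card * ((clq V R 1).card : ℝ) := clq_succ_le V R hR 1
    rw [h0] at h1 ⊢
    simpa using h1
  have hn : (0 : ℝ) < (V.card : ℝ) := by exact_mod_cast h0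
  have hθ0 : 0 ≤ θ := by
    have h1 : (0 : ℝ) ≤ θ * (V.card : ℝ) ^ (t + 2) := le_trans (Nat.cast_nonneg _) hθ
    exact nonneg_of_mul_nonneg_left h1 (pow_pos hn _)
  obtain ⟨q, hq⟩ : ∃ q : ℝ, q = 1 - ((clq V R 2).card : ℝ) / (V.card : ℝ) ^ 2 := ⟨_, rfl⟩
  have hq2 : ((clq V R 2).card : ℝ) = (1 - q) * (V.card : ℝ) ^ 2 := by
    rw [hq]
    field_simp
    ring
  have hq0 : 0 ≤ q := by
    have h1 : ((clq V R 2).card : ℝ) ≤ V.card * ((clq V R 1).card : ℝ) := clq_succ_le V R hR 1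
    rw [card_clq_one, ← pow_two] at h1
    rw [hq, sub_nonneg, div_le_one (pow_pos hn _)]
    exact h1
  rw [hq2]
  refine mul_le_mul_of_nonneg_right ?_ (pow_nonneg hn.le _)
  by_cases hc : ((t : ℝ) + 1) * q ≤ 1
  · have h1 := many V R hR q hq0 hq2 t hc t le_rfl
    rw [← hP] at h1
    have h2 := growth V R hR q hq2 t
    have h3 : (1 - ((t : ℝ) + 1) * q) * (P * (V.card : ℝ) ^ (t + 2)) ≤ θ * (V.card : ℝ) ^ (t + 2) := by
      calc _ = (1 - ((t : ℝ) + 1) * q) * ((V.card : ℝ) * (P * (V.card : ℝ) ^ (t + 1))) := by ring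
        _ ≤ (1 - ((t : ℝ) + 1) * q) * ((V.card : ℝ) * ((clq V R (t + 1)).card : ℝ)) := by
            have h20 : 0 ≤ 1 - ((t : ℝ) + 1) * q := by linarith
            exact mul_le_mul_of_nonneg_left (mul_le_mul_of_nonneg_left h1 hn.le) h20
        _ ≤ _ := h2.trans hθ
    have h4 : (1 - ((t : ℝ) + 1) * q) * P ≤ θ := by
      have : (1 - ((t : ℝ) + 1) * q) * P * (V.card : ℝ) ^ (t + 2) ≤ θ * (V.card : ℝ) ^ (t + 2) := by
        linarith
      exact le_of_mul_le_mul_right this (pow_pos hn _)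
    have h5 : 1 - ((t : ℝ) + 1) * q ≤ θ / P := by rwa [le_div_iff₀ hP0]
    have h6 : 1 / ((t : ℝ) + 1) - q ≤ 1 / (((t : ℝ) + 1) * P) * θ := by
      have h7 : 1 / (((t : ℝ) + 1) * P) * θ = (θ / P) / ((t : ℝ) + 1) := by
        field_simp
      rw [h7, le_div_iff₀ ht0]
      calc (1 / ((t : ℝ) + 1) - q) * ((t : ℝ) + 1) = 1 - ((t : ℝ) + 1) * q := by
            field_simp
        _ ≤ _ := h5
    linarith
  · push Not at hc
    have h1 : 1 / ((t : ℝ) + 1) < q := by
      rw [div_lt_iff₀ ht0]; linarith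
    have h2 : 0 ≤ 1 / (((t : ℝ) + 1) * P) * θ := by positivity
    linarith

end Pool.Agent.Helper22K9
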