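import Mathlib
import Pool.Agent.Helper22K9.Moon

/-! The number of the good pairs of a finite set (helper22). -/

set_option autoImplicit false

namespace Pool.Agent.Helper22K9

open Finset

/-- `G` fails in both directions -/
def Rel (G : ℕ → ℕ → Prop) (x y : ℕ) : Prop := ¬ G x y ∧ ¬ G y x

open Classical in
theorem card_clq_two (V : Finset ℕ) (R : ℕ → ℕ → Prop) (hR : ∀ x y, R x y → R y x) :
    (clq V R 2).card = ((V ×ˢ V).filter (fun z => R z.1 z.2)).card := by
  refine card_bij' (fun f _ => (f 0, f 1)) (fun z _ => ![z.1, z.2]) ?_ ?_ ?_ ?_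
  · intro f hf
    rw [mem_clq] at hf
    exact mem_filter.2 ⟨mem_product.2 ⟨hf.1 0, hf.1 1⟩, hf.2 0 1 (by decide)⟩
  · intro z hz
    obtain ⟨h1, h2⟩ := mem_filter.1 hz
    rw [mem_product] at h1
    rw [mem_clq]
    refine ⟨fun i => ?_, fun i j hij => ?_⟩
    · fin_cases i
      · exact h1.1
      · exact h1.2
    · fin_cases i <;> fin_cases j
      · exact absurd rfl hij
      · exact h2
      · exact hR _ _ h2
      · exact absurd rfl hij
  · intro f _
    funext i
    fin_cases i <;> rfl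
  · intro z _
    rfl

open Classical in
theorem pairs (t : ℕ) : ∃ C : ℝ, 0 < C ∧ ∀ (V : Finset ℕ) (G : ℕ → ℕ → Prop),
    (∀ x y, G x y → x < y) → ∀ θ : ℝ,
    ((clq V (Rel G) (t + 2)).card : ℝ) ≤ θ * (V.card : ℝ) ^ (t + 2) →
    (1 / ((t : ℝ) + 1) - C * θ) * ((V.card : ℝ) ^ 2 / 2) ≤
      (((V ×ˢ V).filter (fun z => G z.1 z.2)).card : ℝ) := by
  obtain ⟨C, hC, h⟩ := dens t
  refine ⟨C, hC, ?_⟩
  intro V G hG θ hθ
  have hsym : ∀ x y, Rel G x y → Rel G y x := fun x y h => ⟨h.2, h.1⟩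
  have h1 := h ℕ V (Rel G) hsym θ hθ
  rw [card_clq_two V _ hsym] at h1
  have h2 : (((V ×ˢ V).filter (fun z => Rel G z.1 z.2)).card : ℝ) +
      (((V ×ˢ V).filter (fun z => ¬ Rel G z.1 z.2)).card : ℝ) = (V.card : ℝ) ^ 2 := by
    have h3 := card_filter_add_card_filter_not (s := V ×ˢ V) (fun z => Rel G z.1 z.2)
    rw [card_product] at h3
    rw [pow_two]
    exact_mod_cast h3
  have h4 : ((V ×ˢ V).filter (fun z => ¬ Rel G z.1 z.2)).card ≤
      2 * ((V ×ˢ V).filter (fun z => G z.1 z.2)).card := by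
    have h5 : (V ×ˢ V).filter (fun z => ¬ Rel G z.1 z.2) ⊆
        (V ×ˢ V).filter (fun z => G z.1 z.2) ∪
          ((V ×ˢ V).filter (fun z => G z.1 z.2)).image Prod.swap := by
      rintro ⟨x, y⟩ hz
      obtain ⟨hz1, hz2⟩ := mem_filter.1 hz
      rw [mem_product] at hz1
      unfold Rel at hz2
      by_cases hg : G x y
      · exact mem_union_left _ (mem_filter.2 ⟨mem_product.2 hz1, hg⟩)
      · refine mem_union_right _ (mem_image.2 ⟨(y, x), mem_filter.2 ⟨mem_product.2 ⟨hz1.2, hz1.1⟩, ?_⟩, rfl⟩)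
        by_contra hc
        exact hz2 ⟨hg, hc⟩
    calc _ ≤ _ := card_le_card h5
      _ ≤ _ := card_union_le _ _
      _ ≤ _ := by
        have := card_image_le (s := (V ×ˢ V).filter (fun z => G z.1 z.2)) (f := Prod.swap)
        omega
  have h6 : (((V ×ˢ V).filter (fun z => ¬ Rel G z.1 z.2)).card : ℝ) ≤
      2 * (((V ×ˢ V).filter (fun z => G z.1 z.2)).card : ℝ) := by exact_mod_cast h4
  nlinarith

end Pool.Agent.Helper22K9
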