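import Mathlib
import Pool.Agent.TH899.UG.BoxP
import Pool.Agent.Helper22K9.Moon

/-! Sets of tuples without large boxes whose sides lie in residue classes are small, with a power saving
(helper22). -/

set_option autoImplicit false

namespace Pool.Agent.Helper22K9

open Finset

open Classical in
/-- tuples with two equal entries -/
theorem equal_le {T : ℕ} (V : Fin T → Finset ℕ) (n : ℕ) (hV : ∀ i, n ≤ (V i).card) (i j : Fin T)
    (hij : i ≠ j) :
    (n : ℝ) * (((Fintype.piFinset V).filter (fun f => f i = f j)).card : ℝ) ≤ ∏ i, ((V i).card : ℝ) := by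
  have h1 : ((Fintype.piFinset V).filter (fun f => f i = f j)).card ≤
      (Fintype.piFinset (Function.update V i {0})).card := by
    refine card_le_card_of_injOn (fun f => Function.update f i 0) ?_ ?_
    · intro f hf
      have hf' := (mem_filter.1 (mem_coe.1 hf)).1
      rw [Fintype.mem_piFinset] at hf'
      refine mem_coe.2 (Fintype.mem_piFinset.2 fun k => ?_)
      by_cases hk : k = i
      · subst hk; simp
      · simp only [Function.update_of_ne hk]
        exact hf' k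
    · intro f hf g hg hfg
      have hf1 := (mem_filter.1 (mem_coe.1 hf)).2
      have hg1 := (mem_filter.1 (mem_coe.1 hg)).2
      have h2 : ∀ k, k ≠ i → f k = g k := by
        intro k hk
        have := congrFun hfg k
        simpa only [Function.update_of_ne hk] using this
      funext k
      by_cases hk : k = i
      · subst hk
        rw [hf1, hg1]
        exact h2 j (Ne.symm hij)
      · exact h2 k hk
  rw [Fintype.card_piFinset] at h1
  have h3 : ∏ k, (Function.update V i {0} k).card = ∏ k ∈ univ.erase i, (V k).card := by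
    rw [← Finset.mul_prod_erase univ _ (mem_univ i)]
    simp only [Function.update_self, card_singleton, one_mul]
    refine prod_congr rfl fun k hk => ?_
    rw [Function.update_of_ne (ne_of_mem_erase hk)]
  rw [h3] at h1
  have h4 : n * ((Fintype.piFinset V).filter (fun f => f i = f j)).card ≤ ∏ k, (V k).card := by
    rw [← Finset.mul_prod_erase univ _ (mem_univ i)]
    exact Nat.mul_le_mul (hV i) h1
  exact_mod_cast h4

/-- **Sets of tuples without boxes.** -/
theorem tuples (T K P : ℕ) (hP : 1 ≤ P) : ∃ C δ : ℝ, 0 < C ∧ 0 < δ ∧ δ ≤ 1 ∧ ∀ n : ℕ, 1 ≤ n →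
    ∀ V : Fin T → Finset ℕ, (∀ i, n ≤ (V i).card) →
    ∀ B : Finset (Fin T → ℕ), B ⊆ Fintype.piFinset V →
    (∀ (A : Fin T → Fin K → ℕ) (r : Fin T → ℕ),
      Function.Injective (fun z : Fin T × Fin K => A z.1 z.2) → (∀ g i, A g i % P = r g) →
      ∃ c : Fin T → Fin K, (fun i => A i (c i)) ∉ B) →
    (B.card : ℝ) ≤ C * (n : ℝ) ^ (-δ) * ∏ i, ((V i).card : ℝ) := by
  classical
  obtain ⟨C₀, E, hC₀, hbox⟩ := Pool.Agent.TH899.UG.box_pow K T
  obtain ⟨δ, hδ⟩ : ∃ δ : ℝ, δ = 1 / ((E : ℝ) + 1) := ⟨_, rfl⟩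
  have hE0 : (0 : ℝ) < (E : ℝ) + 1 := by positivity
  have hδ0 : 0 < δ := by rw [hδ]; positivity
  have hδ1 : δ ≤ 1 := by
    rw [hδ, div_le_one hE0]
    have : (0 : ℝ) ≤ E := Nat.cast_nonneg _
    linarith
  have hC₀0 : (0 : ℝ) < C₀ := by linarith
  refine ⟨((T : ℝ) ^ 2 + (P : ℝ) ^ T + 1) * C₀, δ, by positivity, hδ0, hδ1, ?_⟩
  intro n hn V hV B hB hno
  have hn0 : (0 : ℝ) < n := by exact_mod_cast hn
  have hn1 : (1 : ℝ) ≤ n := by exact_mod_cast hn
  obtain ⟨Pi₀, hPi⟩ : ∃ Pi₀ : ℝ, Pi₀ = ∏ i, ((V i).card : ℝ) := ⟨_, rfl⟩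
  have hPi0 : 0 ≤ Pi₀ := by
    rw [hPi]; exact prod_nonneg fun i _ => Nat.cast_nonneg _
  rw [← hPi]
  have hnδ : 0 < (n : ℝ) ^ (-δ) := Real.rpow_pos_of_pos hn0 _
  have hBPi : (B.card : ℝ) ≤ Pi₀ := by
    have h1 := card_le_card hB
    rw [Fintype.card_piFinset] at h1
    rw [hPi]
    exact_mod_cast h1
  by_cases hbig : C₀ < n
  swap
  · -- trivial
    push Not at hbig
    have h1 : C₀ ^ (-δ) ≤ (n : ℝ) ^ (-δ) :=
      Real.rpow_le_rpow_of_nonpos hn0 hbig (by linarith)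
    have h2 : 1 ≤ C₀ * C₀ ^ (-δ) := by
      calc (1 : ℝ) ≤ C₀ ^ (1 - δ) := Real.one_le_rpow hC₀ (by linarith)
        _ = C₀ ^ (1 + (-δ)) := by ring_nf
        _ = C₀ * C₀ ^ (-δ) := by rw [Real.rpow_add hC₀0, Real.rpow_one]
    have h3 : 1 ≤ ((T : ℝ) ^ 2 + (P : ℝ) ^ T + 1) * C₀ * (n : ℝ) ^ (-δ) := by
      have h4 : C₀ * C₀ ^ (-δ) ≤ C₀ * (n : ℝ) ^ (-δ) := mul_le_mul_of_nonneg_left h1 hC₀0.le
      have h5 : (0 : ℝ) ≤ (T : ℝ) ^ 2 + (P : ℝ) ^ T := by positivity
      have h6 : 1 ≤ C₀ * (n : ℝ) ^ (-δ) := h2.trans h4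
      nlinarith
    calc (B.card : ℝ) ≤ 1 * Pi₀ := by rw [one_mul]; exact hBPi
      _ ≤ _ := mul_le_mul_of_nonneg_right h3 hPi0
  -- the density
  obtain ⟨ε, hε⟩ : ∃ ε : ℝ, ε = (C₀ / n) ^ δ := ⟨_, rfl⟩
  have hq0 : 0 < C₀ / n := by positivity
  have hq1 : C₀ / n ≤ 1 := by rw [div_le_one hn0]; exact hbig.le
  have hε0 : 0 < ε := by rw [hε]; exact Real.rpow_pos_of_pos hq0 _
  have hε1 : ε ≤ 1 := by rw [hε]; exact Real.rpow_le_one hq0.le hq1 hδ0.le
  have hεE : ε ^ (E + 1) = C₀ / n := by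
    rw [hε, ← Real.rpow_natCast, ← Real.rpow_mul hq0.le, hδ]
    push_cast
    rw [one_div_mul_cancel hE0.ne', Real.rpow_one]
  have hVε : ∀ i, C₀ / ε ^ E ≤ ((V i).card : ℝ) := by
    intro i
    refine le_trans ?_ (by exact_mod_cast hV i : (n : ℝ) ≤ ((V i).card : ℝ))
    rw [div_le_iff₀ (by positivity)]
    have h1 : ε ^ (E + 1) ≤ ε ^ E := pow_le_pow_of_le_one hε0.le hε1 (by omega)
    rw [hεE] at h1
    rw [div_le_iff₀ hn0] at h1
    linarith
  -- the parts
  set Bn : Finset (Fin T → ℕ) := (univ : Finset (Fin T × Fin T)).biUnion (fun z =>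
    if z.1 ≠ z.2 then (Fintype.piFinset V).filter (fun f => f z.1 = f z.2) else ∅) with hBn
  set Br : (Fin T → Fin P) → Finset (Fin T → ℕ) := fun r =>
    B.filter (fun f => Function.Injective f ∧ ∀ i, f i % P = (r i : ℕ)) with hBr
  have hcov : B ⊆ Bn ∪ (univ : Finset (Fin T → Fin P)).biUnion Br := by
    intro f hf
    by_cases hinj : Function.Injective f
    · refine mem_union_right _ (mem_biUnion.2 ⟨fun i => ⟨f i % P, Nat.mod_lt _ hP⟩, mem_univ _, ?_⟩)
      exact mem_filter.2 ⟨hf, hinj, fun i => rfl⟩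
    · refine mem_union_left _ ?_
      unfold Function.Injective at hinj
      push Not at hinj
      obtain ⟨a, b, hab, hne⟩ := hinj
      refine mem_biUnion.2 ⟨(a, b), mem_univ _, ?_⟩
      rw [if_pos hne]
      exact mem_filter.2 ⟨hB hf, hab⟩
  have hBn1 : (Bn.card : ℝ) ≤ (T : ℝ) ^ 2 * (Pi₀ / n) := by
    calc (Bn.card : ℝ) ≤ ∑ z : Fin T × Fin T, ((if z.1 ≠ z.2 then
          (Fintype.piFinset V).filter (fun f => f z.1 = f z.2) else ∅ : Finset (Fin T → ℕ)).card : ℝ) := by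
          exact_mod_cast card_biUnion_le
      _ ≤ ∑ _z : Fin T × Fin T, Pi₀ / n := by
          refine sum_le_sum fun z _ => ?_
          split_ifs with hz
          · have h1 := equal_le V n hV z.1 z.2 hz
            rw [← hPi] at h1
            rw [le_div_iff₀ hn0]
            linarith
          · simp only [card_empty, Nat.cast_zero]
            positivity
      _ = (T : ℝ) ^ 2 * (Pi₀ / n) := by
          rw [sum_const, card_univ, Fintype.card_prod, Fintype.card_fin, nsmul_eq_mul]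
          push_cast
          ring
  have hBr1 : ∀ r, ((Br r).card : ℝ) ≤ ε * Pi₀ := by
    intro r
    by_contra hcon
    push Not at hcon
    obtain ⟨A, hA1, hA2⟩ := hbox ε hε0 hε1 ℕ V hVε (Br r) ((filter_subset _ _).trans hB)
      (by rw [← hPi]; exact hcon.le)
    have hA3 : ∀ c : Fin T → Fin K, (fun i => A i (c i)) ∈ B ∧
        Function.Injective (fun i => A i (c i)) ∧ ∀ i, A i (c i) % P = (r i : ℕ) := by
      intro c
      have := hA2 c
      rw [hBr, mem_filter] at this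
      exact this
    obtain ⟨c, hc⟩ := hno A (fun g => (r g : ℕ)) (by
      rintro ⟨g, i⟩ ⟨g', i'⟩ h
      simp only at h
      by_cases hg : g = g'
      · subst hg
        have := hA1 g h
        rw [this]
      · exfalso
        have h4 := (hA3 (Function.update (fun _ => i) g' i')).2.1
        have h5 : A g (Function.update (fun _ => i) g' i' g) = A g' (Function.update (fun _ => i) g' i' g') := by
          rw [Function.update_of_ne hg, Function.update_self]
          exact h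
        exact hg (h4 h5)) (fun g i => (hA3 fun _ => i).2.2 g)
    exact hc (hA3 c).1
  have hfin : (B.card : ℝ) ≤ (T : ℝ) ^ 2 * (Pi₀ / n) + (P : ℝ) ^ T * (ε * Pi₀) := by
    calc (B.card : ℝ) ≤ (Bn.card : ℝ) + (((univ : Finset (Fin T → Fin P)).biUnion Br).card : ℝ) := by
          exact_mod_cast (card_le_card hcov).trans (card_union_le _ _)
      _ ≤ (T : ℝ) ^ 2 * (Pi₀ / n) + ∑ r : Fin T → Fin P, ((Br r).card : ℝ) := by
          refine add_le_add hBn1 ?_
          exact_mod_cast card_biUnion_le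
      _ ≤ (T : ℝ) ^ 2 * (Pi₀ / n) + ∑ _r : Fin T → Fin P, ε * Pi₀ := by
          have := sum_le_sum fun (r : Fin T → Fin P) (_ : r ∈ univ) => hBr1 r
          linarith
      _ = _ := by
          rw [sum_const, card_univ, Fintype.card_fun, Fintype.card_fin, Fintype.card_fin, nsmul_eq_mul]
          push_cast
          ring
  have hεn : ε ≤ C₀ * (n : ℝ) ^ (-δ) := by
    rw [hε, Real.div_rpow hC₀0.le hn0.le, Real.rpow_neg hn0.le, div_eq_mul_inv]
    refine mul_le_mul_of_nonneg_right ?_ (by positivity)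
    calc C₀ ^ δ ≤ C₀ ^ (1 : ℝ) := Real.rpow_le_rpow_of_exponent_le hC₀ hδ1
      _ = C₀ := Real.rpow_one _
  have hnn : 1 / (n : ℝ) ≤ C₀ * (n : ℝ) ^ (-δ) := by
    calc 1 / (n : ℝ) = (n : ℝ) ^ (-1 : ℝ) := by rw [Real.rpow_neg_one, one_div]
      _ ≤ (n : ℝ) ^ (-δ) := Real.rpow_le_rpow_of_exponent_le hn1 (by linarith)
      _ ≤ _ := by nlinarith
  calc (B.card : ℝ) ≤ (T : ℝ) ^ 2 * (Pi₀ / n) + (P : ℝ) ^ T * (ε * Pi₀) := hfin
    _ = ((T : ℝ) ^ 2 * (1 / n) + (P : ℝ) ^ T * ε) * Pi₀ := by ring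
    _ ≤ ((T : ℝ) ^ 2 * (C₀ * (n : ℝ) ^ (-δ)) + (P : ℝ) ^ T * (C₀ * (n : ℝ) ^ (-δ))) * Pi₀ := by
        gcongr
    _ ≤ (((T : ℝ) ^ 2 + (P : ℝ) ^ T + 1) * C₀ * (n : ℝ) ^ (-δ)) * Pi₀ := by
        refine mul_le_mul_of_nonneg_right ?_ hPi0
        have : 0 < C₀ * (n : ℝ) ^ (-δ) := by positivity
        nlinarith

end Pool.Agent.Helper22K9
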