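import Mathlib
import Pool.Agent.Helper22K9.CoreQ
import Pool.Agent.Helper22K9.Tup
import Pool.Agent.Helper22K9.Prs
import Pool.Agent.Y877.Adm

/-! Differences of primes at every scale among the differences of arbitrary finite sets (helper22). -/

set_option autoImplicit false

namespace Pool.Agent.Helper22K9

open Finset Filter Pool.Agent.TH899.UG.TD
open Pool.Agent.Y877 (exresA)

/-- no class modulo a prime `p ≤ T`, `p ∤ q`, is missing -/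
def LocT (T q : ℕ) {ι : Type} (V : ι → Finset ℕ) : Prop :=
  ∀ p : ℕ, p.Prime → p ≤ T → ¬ p ∣ q → ∃ ρ : ℕ, ρ < p ∧ ∀ i, ∀ x ∈ V i, x % p ≠ ρ

theorem locRows (T K q : ℕ) (A : Fin T → Fin K → ℕ) (r : Fin T → ℕ)
    (hr : ∀ g i, A g i % (T * K).factorial = r g)
    (hloc : ∀ p : ℕ, p.Prime → p ≤ T → ¬ p ∣ q → ∃ ρ : ℕ, ρ < p ∧ ∀ g i, A g i % p ≠ ρ) :
    ∀ p : ℕ, p.Prime → ¬ p ∣ q → ∃ n : ℤ, ∀ g i, ¬ ((p : ℤ) ∣ (A g i : ℤ) + n) := by
  classical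
  intro p hp hpq
  have hp0 : (0 : ℤ) < p := by exact_mod_cast hp.pos
  by_cases hpT : p ≤ T
  · obtain ⟨ρ, hρ, h⟩ := hloc p hp hpT hpq
    refine ⟨-ρ, fun g i hd => h g i ?_⟩
    have h1 : (A g i : ℤ) % p = (ρ : ℤ) % p := by
      refine (Int.emod_emod_of_dvd _ dvd_rfl).symm.trans ?_
      have : (A g i : ℤ) ≡ ρ [ZMOD p] := by
        refine (Int.modEq_iff_dvd.2 ?_).symm
        have e : (A g i : ℤ) - ρ = A g i + -ρ := by ring
        rw [e]; exact hd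
      rw [Int.emod_emod_of_dvd _ dvd_rfl]
      exact this
    have h2 : ((A g i % p : ℕ) : ℤ) = ((ρ % p : ℕ) : ℤ) := by
      rw [Int.natCast_mod, Int.natCast_mod]; exact h1
    have h3 : A g i % p = ρ % p := by exact_mod_cast h2
    rw [h3, Nat.mod_eq_of_lt hρ]
  push Not at hpT
  by_cases hpK : p ≤ T * K
  · obtain ⟨n, hn⟩ := exresA p ((univ : Finset (Fin T)).image (fun g => (r g : ℤ))) (by
      refine card_image_le.trans_lt ?_
      rw [card_univ, Fintype.card_fin]; omega)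
    refine ⟨n, fun g i h => hn (r g) (mem_image.2 ⟨g, mem_univ _, rfl⟩) ?_⟩
    have h1 : (p : ℤ) ∣ (A g i : ℤ) - r g := by
      have h2 : (p : ℤ) ∣ ((T * K).factorial : ℕ) := by
        exact_mod_cast (hp.dvd_factorial).2 hpK
      refine h2.trans ?_
      have h4 : ((r g : ℕ) : ℤ) = (A g i : ℤ) % ((T * K).factorial : ℕ) := by
        rw [← hr g i]; push_cast; rfl
      rw [h4]
      exact Int.dvd_self_sub_emod
    have h2 : n + (r g : ℤ) = (A g i + n) - ((A g i : ℤ) - r g) := by ring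
    rw [h2]
    exact dvd_sub h h1
  · obtain ⟨n, hn⟩ := exresA p ((univ : Finset (Fin T × Fin K)).image
      (fun z => (A z.1 z.2 : ℤ))) (by
      refine card_image_le.trans_lt ?_
      rw [card_univ, Fintype.card_prod, Fintype.card_fin, Fintype.card_fin]; omega)
    exact ⟨n, fun g i h => hn _ (mem_image.2 ⟨(g, i), mem_univ _, rfl⟩) (by rw [add_comm]; exact h)⟩

/-- `d` is a difference of two primes `p`, `p + d` of the interval `[x, (1 + s) x]`, `p ≡ a (mod q)`, in at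
least `x ^ (1 - η)` ways -/
def Dp (s η : ℝ) (x q a d : ℕ) : Prop := (x : ℝ) ^ (1 - η) ≤ prq s x q a d

/-- `M + 1` different entries of `f` such that `q` times any of their differences is a difference of primes -/
def Clq {T : ℕ} (M : ℕ) (s η : ℝ) (x q a : ℕ) (f : Fin T → ℕ) : Prop :=
  ∃ S : Finset (Fin T), M + 1 ≤ S.card ∧ Set.InjOn f S ∧
    ∀ i ∈ S, ∀ j ∈ S, f i < f j → Dp s η x q a (q * (f j - f i))

open Classical in
theorem tupX (T M : ℕ) (s : ℝ) (K C₀ : ℕ)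
    (H : ∀ q : ℕ, 1 ≤ q → ∀ η : ℝ, 0 < η →
    ∀ᶠ x : ℕ in atTop, ∀ a : ℕ, a.Coprime q → ∀ A : Fin T → Fin K → ℕ,
      (Function.Injective (fun z : Fin T × Fin K => A z.1 z.2)) →
      (∀ g i, C₀ * (q ^ 2 * A g i) ≤ x) →
      (∀ p : ℕ, p.Prime → ¬ p ∣ q → ∃ n : ℤ, ∀ g i, ¬ ((p : ℤ) ∣ (A g i : ℤ) + n)) →
      ∃ (S : Finset (Fin T)) (σ : Fin T → Fin K), M + 1 ≤ S.card ∧
        ∀ i ∈ S, ∀ j ∈ S, A i (σ i) < A j (σ j) →
          (x : ℝ) ^ (1 - η) ≤ prq s x q a (q * (A j (σ j) - A i (σ i)))) :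
    ∃ C δ : ℝ, 0 < C ∧ 0 < δ ∧ δ ≤ 1 ∧ ∀ q : ℕ, 1 ≤ q → ∀ η : ℝ, 0 < η → ∀ᶠ x : ℕ in atTop,
      ∀ a : ℕ, a.Coprime q → ∀ n : ℕ, 1 ≤ n → ∀ V : Fin T → Finset ℕ, (∀ i, n ≤ (V i).card) →
      (∀ i, ∀ y ∈ V i, C₀ * (q ^ 2 * y) ≤ x) → LocT T q V →
      (((Fintype.piFinset V).filter (fun f => ¬ Clq M s η x q a f)).card : ℝ) ≤
        C * (n : ℝ) ^ (-δ) * ∏ i, ((V i).card : ℝ) := by
  obtain ⟨C, δ, hC, hδ, hδ1, h⟩ := tuples T K (T * K).factorial (Nat.factorial_pos _)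
  refine ⟨C, δ, hC, hδ, hδ1, ?_⟩
  intro q hq η hη
  filter_upwards [H q hq η hη] with x hx a ha n hn V hV hVx hL
  refine h n hn V hV _ (filter_subset _ _) ?_
  intro A r hinj hr
  by_contra hcon
  push Not at hcon
  have hmem : ∀ c : Fin T → Fin K, (∀ g, A g (c g) ∈ V g) ∧ ¬ Clq M s η x q a (fun i => A i (c i)) := by
    intro c
    have := hcon c
    rw [mem_filter, Fintype.mem_piFinset] at this
    exact this
  obtain ⟨S, σ, hS, h3⟩ := hx a ha A hinj (fun g i => hVx g _ ((hmem fun _ => i).1 g))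
    (locRows T K q A r hr fun p hp hpT hpq => by
      obtain ⟨ρ, h1, h2⟩ := hL p hp hpT hpq
      exact ⟨ρ, h1, fun g i => h2 g _ ((hmem fun _ => i).1 g)⟩)
  refine (hmem σ).2 ⟨S, hS, fun i _ j _ hij => ?_, h3⟩
  have h4 : ((i, σ i) : Fin T × Fin K) = (j, σ j) := hinj hij
  exact (Prod.mk.inj h4).1

open Classical in
theorem tup185 (T M : ℕ) (hT : 1 ≤ T) (hTM : (18 / 5 : ℝ) * M < T) :
    ∃ C δ : ℝ, 0 < C ∧ 0 < δ ∧ δ ≤ 1 ∧ ∀ q : ℕ, 1 ≤ q → ∀ η : ℝ, 0 < η → ∀ᶠ x : ℕ in atTop,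
      ∀ a : ℕ, a.Coprime q → ∀ n : ℕ, 1 ≤ n → ∀ V : Fin T → Finset ℕ, (∀ i, n ≤ (V i).card) →
      (∀ i, ∀ y ∈ V i, 2 * (q ^ 2 * y) ≤ x) → LocT T q V →
      (((Fintype.piFinset V).filter (fun f => ¬ Clq M 8 η x q a f)).card : ℝ) ≤
        C * (n : ℝ) ^ (-δ) * ∏ i, ((V i).card : ℝ) := by
  obtain ⟨K, -, H⟩ := coreXGq T M hT hTM
  exact tupX T M 8 K 2 H

/-- four classes, narrow windows -/
theorem core4 (s : ℝ) (hs : 0 < s) : ∃ K C : ℕ, 1 ≤ K ∧ ∀ q : ℕ, 1 ≤ q → ∀ η : ℝ, 0 < η →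
    ∀ᶠ x : ℕ in atTop, ∀ a : ℕ, a.Coprime q → ∀ A : Fin 4 → Fin K → ℕ,
      (Function.Injective (fun z : Fin 4 × Fin K => A z.1 z.2)) →
      (∀ g i, C * (q ^ 2 * A g i) ≤ x) →
      (∀ p : ℕ, p.Prime → ¬ p ∣ q → ∃ n : ℤ, ∀ g i, ¬ ((p : ℤ) ∣ (A g i : ℤ) + n)) →
      ∃ (S : Finset (Fin 4)) (σ : Fin 4 → Fin K), 1 + 1 ≤ S.card ∧
        ∀ i ∈ S, ∀ j ∈ S, A i (σ i) < A j (σ j) →
          (x : ℝ) ^ (1 - η) ≤ prq s x q a (q * (A j (σ j) - A i (σ i))) := by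
  obtain ⟨c, hc, hc1, H⟩ := coreXq
  exact H 4 1 (by norm_num) (by push_cast; linarith) s hs

open Classical in
theorem tupN4 (s : ℝ) (hs : 0 < s) :
    ∃ (C₀ : ℕ) (C δ : ℝ), 0 < C ∧ 0 < δ ∧ δ ≤ 1 ∧ ∀ q : ℕ, 1 ≤ q → ∀ η : ℝ, 0 < η → ∀ᶠ x : ℕ in atTop,
      ∀ a : ℕ, a.Coprime q → ∀ n : ℕ, 1 ≤ n → ∀ V : Fin 4 → Finset ℕ, (∀ i, n ≤ (V i).card) →
      (∀ i, ∀ y ∈ V i, C₀ * (q ^ 2 * y) ≤ x) → LocT 4 q V →
      (((Fintype.piFinset V).filter (fun f => ¬ Clq 1 s η x q a f)).card : ℝ) ≤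
        C * (n : ℝ) ^ (-δ) * ∏ i, ((V i).card : ℝ) := by
  obtain ⟨K, C₀, -, H⟩ := core4 s hs
  exact ⟨C₀, tupX 4 1 s K C₀ H⟩

/-- five classes: four of them are in two classes modulo 3 -/
theorem choose4X (r : Fin 5 → ℕ) : ∃ (ρ : ℕ) (e : Fin 4 ↪ Fin 5), ρ < 3 ∧ ∀ j, r (e j) % 3 ≠ ρ := by
  classical
  obtain ⟨ρ, hρ, hc⟩ : ∃ ρ ∈ range 3, ((univ : Finset (Fin 5)).filter (fun i => r i % 3 = ρ)).card ≤ 1 := by
    by_contra hcon
    push Not at hcon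
    have h1 : (univ : Finset (Fin 5)).card =
        ∑ ρ ∈ range 3, ((univ : Finset (Fin 5)).filter (fun i => r i % 3 = ρ)).card := by
      refine card_eq_sum_card_fiberwise fun i _ => ?_
      exact mem_coe.2 (mem_range.2 (Nat.mod_lt _ (by norm_num)))
    rw [card_univ, Fintype.card_fin] at h1
    have h2 : ∑ ρ ∈ range 3, 2 ≤
        ∑ ρ ∈ range 3, ((univ : Finset (Fin 5)).filter (fun i => r i % 3 = ρ)).card :=
      sum_le_sum fun ρ hρ => hcon ρ hρ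
    rw [sum_const, card_range] at h2
    simp at h2
    omega
  have h3 : 4 ≤ ((univ : Finset (Fin 5)).filter (fun i => ¬ r i % 3 = ρ)).card := by
    have h4 := card_filter_add_card_filter_not (s := (univ : Finset (Fin 5))) (fun i => r i % 3 = ρ)
    rw [card_univ, Fintype.card_fin] at h4
    omega
  obtain ⟨S, hS, hSc⟩ := exists_subset_card_eq h3
  refine ⟨ρ, (S.orderEmbOfFin hSc).toEmbedding, mem_range.1 hρ, fun j => ?_⟩
  have h5 := hS (S.orderEmbOfFin_mem hSc j)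
  exact (mem_filter.1 h5).2

open Classical in
/-- five sets, a local condition only modulo 2 -/
theorem tupN5 (s : ℝ) (hs : 0 < s) :
    ∃ (C₀ : ℕ) (C δ : ℝ), 0 < C ∧ 0 < δ ∧ δ ≤ 1 ∧ ∀ q : ℕ, 1 ≤ q → ∀ η : ℝ, 0 < η → ∀ᶠ x : ℕ in atTop,
      ∀ a : ℕ, a.Coprime q → ∀ n : ℕ, 1 ≤ n → ∀ V : Fin 5 → Finset ℕ, (∀ i, n ≤ (V i).card) →
      (∀ i, ∀ y ∈ V i, C₀ * (q ^ 2 * y) ≤ x) → LocT 2 q V →
      (((Fintype.piFinset V).filter (fun f => ¬ Clq 1 s η x q a f)).card : ℝ) ≤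
        C * (n : ℝ) ^ (-δ) * ∏ i, ((V i).card : ℝ) := by
  obtain ⟨K, C₀, hK, H⟩ := core4 s hs
  refine ⟨C₀, ?_⟩
  obtain ⟨C, δ, hC, hδ, hδ1, h⟩ := tuples 5 K (5 * K).factorial (Nat.factorial_pos _)
  refine ⟨C, δ, hC, hδ, hδ1, ?_⟩
  intro q hq η hη
  filter_upwards [H q hq η hη] with x hx a ha n hn V hV hVx hL
  refine h n hn V hV _ (filter_subset _ _) ?_
  intro A r hinj hr
  by_contra hcon
  push Not at hcon
  have hmem : ∀ c : Fin 5 → Fin K, (∀ g, A g (c g) ∈ V g) ∧ ¬ Clq 1 s η x q a (fun i => A i (c i)) := by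
    intro c
    have := hcon c
    rw [mem_filter, Fintype.mem_piFinset] at this
    exact this
  obtain ⟨ρ, e, hρ, he⟩ := choose4X r
  have h43 : (4 * K).factorial ∣ (5 * K).factorial := Nat.factorial_dvd_factorial (by omega)
  obtain ⟨S, σ, hS, h3⟩ := hx a ha (fun g i => A (e g) i) (by
      rintro ⟨g, i⟩ ⟨g', i'⟩ h
      have h1 : ((e g, i) : Fin 5 × Fin K) = (e g', i') := hinj h
      rw [Prod.mk.injEq] at h1
      rw [e.injective h1.1, h1.2])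
    (fun g i => hVx _ _ ((hmem fun _ => i).1 _))
    (locRows 4 K q (fun g i => A (e g) i) (fun g => r (e g) % (4 * K).factorial) (fun g i => by
        show A (e g) i % (4 * K).factorial = r (e g) % (4 * K).factorial
        rw [← hr (e g) i, Nat.mod_mod_of_dvd _ h43]) fun p hp hpT hpq => by
      have hp2 := hp.two_le
      by_cases hp2' : p = 2
      · subst hp2'
        obtain ⟨ρ', h1, h2⟩ := hL 2 hp le_rfl hpq
        exact ⟨ρ', h1, fun g i => h2 _ _ ((hmem fun _ => i).1 _)⟩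
      · have hp3 : p = 3 := by
          have : p ≠ 4 := fun h => by subst h; exact absurd hp (by decide)
          omega
        subst hp3
        refine ⟨ρ, hρ, fun g i hgi => he g ?_⟩
        rw [← hr (e g) i]
        have h3 : 3 ∣ (5 * K).factorial := Nat.Prime.dvd_factorial (by norm_num) |>.2 (by omega)
        rw [Nat.mod_mod_of_dvd _ h3]
        exact hgi)
  -- transport
  have hex : ∀ k : Fin 5, ∃ i : Fin K, ∀ j, e j = k → σ j = i := by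
    intro k
    by_cases hk : ∃ j, e j = k
    · obtain ⟨j, rfl⟩ := hk
      exact ⟨σ j, fun j' hj' => by rw [e.injective hj']⟩
    · exact ⟨⟨0, hK⟩, fun j hj => absurd ⟨j, hj⟩ hk⟩
  choose c hc using hex
  have hc' : ∀ j, c (e j) = σ j := fun j => (hc (e j) j rfl).symm
  refine (hmem c).2 ⟨S.map e, by rw [card_map]; exact hS, fun i _ j _ hij => ?_, ?_⟩
  · have h4 : ((i, c i) : Fin 5 × Fin K) = (j, c j) := hinj hij
    exact (Prod.mk.inj h4).1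
  intro i hi j hj hij
  obtain ⟨i', hi', rfl⟩ := mem_map.1 hi
  obtain ⟨j', hj', rfl⟩ := mem_map.1 hj
  have hij' : A (e i') (σ i') < A (e j') (σ j') := by
    rw [← hc', ← hc']; exact hij
  have h5 := h3 i' hi' j' hj' hij'
  show Dp s η x q a (q * (A (e j') (c (e j')) - A (e i') (c (e i'))))
  rw [hc', hc']
  exact h5

open Classical in
theorem clq_sub (T : ℕ) (s η : ℝ) (x q a : ℕ) (V : Finset ℕ) :
    clq V (Rel (fun y z => y < z ∧ Dp s η x q a (q * (z - y)))) T ⊆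
      (Fintype.piFinset (fun _ : Fin T => V)).filter (fun f => ¬ Clq 1 s η x q a f) := by
  intro f hf
  rw [mem_clq] at hf
  rw [mem_filter, Fintype.mem_piFinset]
  refine ⟨hf.1, ?_⟩
  rintro ⟨S, hS, hinj, h⟩
  obtain ⟨i, hi, j, hj, hij⟩ := one_lt_card.1 (by omega : 1 < S.card)
  have hne : f i ≠ f j := fun h => hij (hinj hi hj h)
  rcases lt_or_gt_of_ne hne with h1 | h1
  · exact (hf.2 i j hij).1 ⟨h1, h i hi j hj h1⟩
  · exact (hf.2 i j hij).2 ⟨h1, h j hj i hi h1⟩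

open Classical in
theorem pairsX (t T₀ : ℕ) (s : ℝ)
    (h : ∃ (C₀ : ℕ) (C δ : ℝ), 0 < C ∧ 0 < δ ∧ δ ≤ 1 ∧ ∀ q : ℕ, 1 ≤ q → ∀ η : ℝ, 0 < η →
      ∀ᶠ x : ℕ in atTop, ∀ a : ℕ, a.Coprime q → ∀ n : ℕ, 1 ≤ n → ∀ V : Fin (t + 2) → Finset ℕ,
      (∀ i, n ≤ (V i).card) →
      (∀ i, ∀ y ∈ V i, C₀ * (q ^ 2 * y) ≤ x) → LocT T₀ q V →
      (((Fintype.piFinset V).filter (fun f => ¬ Clq 1 s η x q a f)).card : ℝ) ≤
        C * (n : ℝ) ^ (-δ) * ∏ i, ((V i).card : ℝ)) :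
    ∃ (C₀ : ℕ) (C δ : ℝ), 0 < C ∧ 0 < δ ∧ ∀ q : ℕ, 1 ≤ q → ∀ η : ℝ, 0 < η → ∀ᶠ x : ℕ in atTop,
      ∀ a : ℕ, a.Coprime q → ∀ V : Finset ℕ, 1 ≤ V.card →
      (∀ y ∈ V, C₀ * (q ^ 2 * y) ≤ x) →
      (∀ p : ℕ, p.Prime → p ≤ T₀ → ¬ p ∣ q → ∃ ρ : ℕ, ρ < p ∧ ∀ y ∈ V, y % p ≠ ρ) →
      (1 / ((t : ℝ) + 1) - C * (V.card : ℝ) ^ (-δ)) * ((V.card : ℝ) ^ 2 / 2) ≤
      (((V ×ˢ V).filter (fun z => z.1 < z.2 ∧ Dp s η x q a (q * (z.2 - z.1)))).card : ℝ) := by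
  obtain ⟨C₀, C, δ, hC, hδ, hδ1, h⟩ := h
  obtain ⟨C', hC', h'⟩ := pairs t
  refine ⟨C₀, C' * C, δ, by positivity, hδ, ?_⟩
  intro q hq η hη
  filter_upwards [h q hq η hη] with x hx a ha V hV hVx hL
  have h1 := hx a ha V.card hV (fun _ => V) (fun _ => le_rfl) (fun _ => hVx)
    (fun p hp hpT hpq => by
      obtain ⟨ρ, h1, h2⟩ := hL p hp hpT hpq
      exact ⟨ρ, h1, fun _ => h2⟩)
  rw [prod_const, card_univ, Fintype.card_fin] at h1
  have h3 := h' V (fun y z => y < z ∧ Dp s η x q a (q * (z - y))) (fun x y h => h.1)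
    (C * (V.card : ℝ) ^ (-δ)) (le_trans (by
      rw [Nat.cast_le]
      exact card_le_card (clq_sub (t + 2) s η x q a V)) h1)
  rw [mul_assoc]
  convert h3

end Pool.Agent.Helper22K9
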