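import Mathlib
import Pool.Agent.Y877.Consec2
import Pool.Agent.Helper22K9.Tup
import Pool.Agent.Helper22K9.Prs

/-! Gaps between consecutive primes among the differences of arbitrary finite sets (helper22). -/

set_option autoImplicit false

namespace Pool.Agent.Helper22K9

open Finset Filter
open Pool.Agent.W59.GB Pool.Agent.H947R3.GM
open Pool.Agent.Y877 (IsGap exresA)

/-- four rows in residue classes, not in all the classes modulo `3` -/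
theorem rows4 : ∃ K : ℕ, 1 ≤ K ∧ ∀ N a : ℕ, 0 < N → 2 ∣ N → Squarefree N → a.Coprime N →
    ∀ (A : Fin 4 → Fin K → ℕ) (r : Fin 4 → ℕ),
    Function.Injective (fun z : Fin 4 × Fin K => A z.1 z.2) →
    (∀ g i, A g i % (5 * K).factorial = r g) →
    (3 ∣ N ∨ ∃ ρ : ℕ, ρ < 3 ∧ ∀ g i, A g i % 3 ≠ ρ) →
    ∃ g g' i i', g ≠ g' ∧ A g i < A g' i' ∧ IsGap N a (A g' i' - A g i) := by
  classical
  obtain ⟨K, hK, H⟩ := Pool.Agent.Y877.four (Pool.Agent.W473.UBCB.main Pool.Agent.W25.UB.thmVG)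
  refine ⟨K, hK, ?_⟩
  intro N a hN h2 hsq ha A r hinj hr h3
  obtain ⟨g, g', i, i', h4, h5, h6⟩ := H N a hN h2 hsq ha A ⟨hinj, by
    intro p hp hpN
    by_cases hp3 : p = 3
    · subst hp3
      rcases h3 with h3 | ⟨ρ, hρ, h3⟩
      · exact absurd h3 hpN
      · refine ⟨-ρ, fun g i h => h3 g i ?_⟩
        omega
    have hp2 : p ≠ 2 := fun h => hpN (h ▸ h2)
    have hp5 : 5 ≤ p := by
      have h1 := hp.two_le
      have : p ≠ 4 := fun h => by subst h; exact absurd hp (by decide)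
      omega
    by_cases hpK : p ≤ 5 * K
    · obtain ⟨n, hn⟩ := exresA p ((univ : Finset (Fin 4)).image (fun g => (r g : ℤ))) (by
        refine card_image_le.trans_lt ?_
        rw [card_univ, Fintype.card_fin]; omega)
      refine ⟨n, fun g i h => hn (r g) (mem_image.2 ⟨g, mem_univ _, rfl⟩) ?_⟩
      have h1 : (p : ℤ) ∣ (A g i : ℤ) - r g := by
        have h2 : (p : ℤ) ∣ ((5 * K).factorial : ℕ) := by
          exact_mod_cast (hp.dvd_factorial).2 hpK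
        refine h2.trans ?_
        have h4 : ((r g : ℕ) : ℤ) = (A g i : ℤ) % ((5 * K).factorial : ℕ) := by
          rw [← hr g i]; push_cast; rfl
        rw [h4]
        exact Int.dvd_self_sub_emod
      have h2 : n + (r g : ℤ) = (n + A g i) - ((A g i : ℤ) - r g) := by ring
      rw [h2]
      exact dvd_sub h h1
    · obtain ⟨n, hn⟩ := exresA p ((univ : Finset (Fin 4 × Fin K)).image
        (fun z => (A z.1 z.2 : ℤ))) (by
        refine card_image_le.trans_lt ?_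
        rw [card_univ, Fintype.card_prod, Fintype.card_fin, Fintype.card_fin]; omega)
      exact ⟨n, fun g i h => hn _ (mem_image.2 ⟨(g, i), mem_univ _, rfl⟩) h⟩⟩
  exact ⟨g, g', i, i', h4, h5, fun η hη => nthB h6 η hη⟩

/-- five classes: four of them are in two classes modulo 3 -/
theorem choose4 (r : Fin 5 → ℕ) : ∃ (ρ : ℕ) (e : Fin 4 ↪ Fin 5), ρ < 3 ∧ ∀ j, r (e j) % 3 ≠ ρ := by
  classical
  obtain ⟨ρ, hρ, hc⟩ : ∃ ρ ∈ range 3, ((univ : Finset (Fin 5)).filter (fun i => r i % 3 = ρ)).card ≤ 1 := by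
    by_contra hcon
    push Not at hcon
    have h1 : (univ : Finset (Fin 5)).card =
        ∑ ρ ∈ range 3, ((univ : Finset (Fin 5)).filter (fun i => r i % 3 = ρ)).card := by
      refine card_eq_sum_card_fiberwise fun i _ => ?_
      exact mem_coe.2 (mem_range.2 (Nat.mod_lt _ (by norm_num)))
    rw [card_univ, Fintype.card_fin] at h1
    have h2 : ∑ ρ ∈ range 3, 2 ≤
        ∑ ρ ∈ range 3, ((univ : Finset (Fin 5)).filter (fun i => r i % 3 = ρ)).card :=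
      sum_le_sum fun ρ hρ => hcon ρ hρ
    rw [sum_const, card_range] at h2
    simp at h2
    omega
  have h3 : 4 ≤ ((univ : Finset (Fin 5)).filter (fun i => ¬ r i % 3 = ρ)).card := by
    have h4 := card_filter_add_card_filter_not (s := (univ : Finset (Fin 5))) (fun i => r i % 3 = ρ)
    rw [card_univ, Fintype.card_fin] at h4
    omega
  obtain ⟨S, hS, hSc⟩ := exists_subset_card_eq h3
  refine ⟨ρ, (S.orderEmbOfFin hSc).toEmbedding, mem_range.1 hρ, fun j => ?_⟩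
  have h5 := hS (S.orderEmbOfFin_mem hSc j)
  exact (mem_filter.1 h5).2

/-- five rows in residue classes -/
theorem rows5 : ∃ K : ℕ, 1 ≤ K ∧ ∀ N a : ℕ, 0 < N → 2 ∣ N → Squarefree N → a.Coprime N →
    ∀ (A : Fin 5 → Fin K → ℕ) (r : Fin 5 → ℕ),
    Function.Injective (fun z : Fin 5 × Fin K => A z.1 z.2) →
    (∀ g i, A g i % (5 * K).factorial = r g) →
    ∃ g g' i i', g ≠ g' ∧ A g i < A g' i' ∧ IsGap N a (A g' i' - A g i) := by
  classical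
  obtain ⟨K, hK, H⟩ := rows4
  refine ⟨K, hK, ?_⟩
  intro N a hN h2 hsq ha A r hinj hr
  obtain ⟨ρ, e, hρ, he⟩ := choose4 r
  obtain ⟨g, g', i, i', h3, h4, h5⟩ := H N a hN h2 hsq ha (fun g i => A (e g) i) (fun g => r (e g)) (by
      rintro ⟨g, i⟩ ⟨g', i'⟩ h
      have h1 : ((e g, i) : Fin 5 × Fin K) = (e g', i') := hinj h
      rw [Prod.mk.injEq] at h1
      rw [e.injective h1.1, h1.2])
    (fun g i => hr _ _)
    (Or.inr ⟨ρ, hρ, fun g i h => he g (by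
      rw [← hr (e g) i]
      have h3 : 3 ∣ (5 * K).factorial := Nat.Prime.dvd_factorial (by norm_num) |>.2 (by omega)
      rw [Nat.mod_mod_of_dvd _ h3]
      exact h)⟩)
  exact ⟨e g, e g', i, i', fun h => h3 (e.injective h), h4, h5⟩

/-- the tuples without gaps -/
def Bad (N a : ℕ) {T : ℕ} (f : Fin T → ℕ) : Prop := ∀ i j, f i < f j → ¬ IsGap N a (f j - f i)

open Classical in
theorem tup_gen (T K : ℕ) (Loc : ℕ → (Fin T → Finset ℕ) → Prop)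
    (H : ∀ N a : ℕ, 0 < N → 2 ∣ N → Squarefree N → a.Coprime N →
      ∀ (V : Fin T → Finset ℕ), Loc N V → ∀ (A : Fin T → Fin K → ℕ) (r : Fin T → ℕ),
      Function.Injective (fun z : Fin T × Fin K => A z.1 z.2) →
      (∀ g i, A g i % (5 * K).factorial = r g) → (∀ g i, A g i ∈ V g) →
      ∃ g g' i i', g ≠ g' ∧ A g i < A g' i' ∧ IsGap N a (A g' i' - A g i)) (hK : 1 ≤ K) :
    ∃ C δ : ℝ, 0 < C ∧ 0 < δ ∧ δ ≤ 1 ∧ ∀ N a : ℕ, 0 < N → 2 ∣ N → Squarefree N → a.Coprime N →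
      ∀ n : ℕ, 1 ≤ n → ∀ V : Fin T → Finset ℕ, (∀ i, n ≤ (V i).card) → Loc N V →
      (((Fintype.piFinset V).filter (Bad N a)).card : ℝ) ≤
        C * (n : ℝ) ^ (-δ) * ∏ i, ((V i).card : ℝ) := by
  obtain ⟨C, δ, hC, hδ, hδ1, h⟩ := tuples T K (5 * K).factorial (Nat.factorial_pos _)
  refine ⟨C, δ, hC, hδ, hδ1, ?_⟩
  intro N a hN h2 hsq ha n hn V hV hL
  refine h n hn V hV _ (filter_subset _ _) ?_
  intro A r hinj hr
  by_contra hcon
  push Not at hcon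
  have hmem : ∀ c : Fin T → Fin K, (∀ g, A g (c g) ∈ V g) ∧ Bad N a (fun i => A i (c i)) := by
    intro c
    have := hcon c
    rw [mem_filter, Fintype.mem_piFinset] at this
    exact this
  obtain ⟨g, g', i, i', h3, h4, h5⟩ := H N a hN h2 hsq ha V hL A r hinj hr
    (fun g i => (hmem fun _ => i).1 g)
  have h6 := (hmem (Function.update (fun _ => i) g' i')).2 g g'
  simp only [Function.update_self, Function.update_of_ne h3] at h6
  exact h6 h4 h5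

/-- a class modulo 3 is avoided, or 3 divides `N` -/
def Loc3 (N : ℕ) {ι : Type} (V : ι → Finset ℕ) : Prop :=
  3 ∣ N ∨ ∃ ρ : ℕ, ρ < 3 ∧ ∀ i, ∀ x ∈ V i, x % 3 ≠ ρ

open Classical in
theorem tup4 : ∃ C δ : ℝ, 0 < C ∧ 0 < δ ∧ δ ≤ 1 ∧ ∀ N a : ℕ, 0 < N → 2 ∣ N → Squarefree N → a.Coprime N →
      ∀ n : ℕ, 1 ≤ n → ∀ V : Fin 4 → Finset ℕ, (∀ i, n ≤ (V i).card) → Loc3 N V →
      (((Fintype.piFinset V).filter (Bad N a)).card : ℝ) ≤
        C * (n : ℝ) ^ (-δ) * ∏ i, ((V i).card : ℝ) := by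
  obtain ⟨K, hK, H⟩ := rows4
  refine tup_gen 4 K (fun N V => Loc3 N V) ?_ hK
  intro N a hN h2 hsq ha V hL A r hinj hr hA
  refine H N a hN h2 hsq ha A r hinj hr ?_
  rcases hL with h | ⟨ρ, h1, h3⟩
  · exact Or.inl h
  · exact Or.inr ⟨ρ, h1, fun g i => h3 g _ (hA g i)⟩

open Classical in
theorem tup5 : ∃ C δ : ℝ, 0 < C ∧ 0 < δ ∧ δ ≤ 1 ∧ ∀ N a : ℕ, 0 < N → 2 ∣ N → Squarefree N → a.Coprime N →
      ∀ n : ℕ, 1 ≤ n → ∀ V : Fin 5 → Finset ℕ, (∀ i, n ≤ (V i).card) →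
      (((Fintype.piFinset V).filter (Bad N a)).card : ℝ) ≤
        C * (n : ℝ) ^ (-δ) * ∏ i, ((V i).card : ℝ) := by
  obtain ⟨K, hK, H⟩ := rows5
  obtain ⟨C, δ, hC, hδ, hδ1, h⟩ := tup_gen 5 K (fun _ _ => True)
    (fun N a hN h2 hsq ha V _ A r hinj hr _ => H N a hN h2 hsq ha A r hinj hr) hK
  exact ⟨C, δ, hC, hδ, hδ1, fun N a hN h2 hsq ha n hn V hV => h N a hN h2 hsq ha n hn V hV trivial⟩

open Classical in
theorem clq_bad (N a T : ℕ) (V : Finset ℕ) :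
    clq V (Rel (fun x y => x < y ∧ IsGap N a (y - x))) T =
      (Fintype.piFinset (fun _ : Fin T => V)).filter (Bad N a) := by
  ext f
  rw [mem_clq, mem_filter, Fintype.mem_piFinset]
  refine and_congr_right fun _ => ?_
  constructor
  · intro h i j hij hg
    have hne : i ≠ j := by rintro rfl; omega
    exact (h i j hne).1 ⟨hij, hg⟩
  · intro h i j _
    exact ⟨fun h1 => h i j h1.1 h1.2, fun h1 => h j i h1.1 h1.2⟩

open Classical in
theorem pairs_gen (t : ℕ) (Loc : ℕ → Finset ℕ → Prop)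
    (h : ∃ C δ : ℝ, 0 < C ∧ 0 < δ ∧ ∀ N a : ℕ, 0 < N → 2 ∣ N → Squarefree N → a.Coprime N →
      ∀ W : Finset ℕ, 1 ≤ W.card → Loc N W →
      (((Fintype.piFinset (fun _ : Fin (t + 2) => W)).filter (Bad N a)).card : ℝ) ≤
        C * (W.card : ℝ) ^ (-δ) * ∏ _i : Fin (t + 2), (W.card : ℝ)) :
    ∃ C δ : ℝ, 0 < C ∧ 0 < δ ∧ ∀ N a : ℕ, 0 < N → 2 ∣ N → Squarefree N → a.Coprime N →
      ∀ V : Finset ℕ, 1 ≤ V.card → Loc N V →
      (1 / ((t : ℝ) + 1) - C * (V.card : ℝ) ^ (-δ)) * ((V.card : ℝ) ^ 2 / 2) ≤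
      (((V ×ˢ V).filter (fun z => z.1 < z.2 ∧ IsGap N a (z.2 - z.1))).card : ℝ) := by
  obtain ⟨C, δ, hC, hδ, h⟩ := h
  obtain ⟨C', hC', h'⟩ := pairs t
  refine ⟨C' * C, δ, by positivity, hδ, ?_⟩
  intro N a hN h2 hsq ha V hV hL
  have h1 := h N a hN h2 hsq ha V hV hL
  rw [prod_const, card_univ, Fintype.card_fin] at h1
  have h3 := h' V (fun x y => x < y ∧ IsGap N a (y - x)) (fun x y h => h.1) (C * (V.card : ℝ) ^ (-δ))
    (by rw [clq_bad]; exact h1)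
  rw [mul_assoc]
  convert h3

theorem rpow_mono (n : ℕ) (hn : 1 ≤ n) (δ δ' : ℝ) (h : δ' ≤ δ) : (n : ℝ) ^ (-δ) ≤ (n : ℝ) ^ (-δ') :=
  Real.rpow_le_rpow_of_exponent_le (by exact_mod_cast hn) (by linarith)

theorem mono_aux (n : ℕ) (hn : 1 ≤ n) (C C' δ δ' : ℝ) (hC : C ≤ C') (hC0 : 0 < C) (h : δ' ≤ δ) :
    C * (n : ℝ) ^ (-δ) ≤ C' * (n : ℝ) ^ (-δ') :=
  mul_le_mul hC (rpow_mono n hn δ δ' h) (Real.rpow_nonneg (Nat.cast_nonneg _) _) (hC0.le.trans hC)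

open Classical in
/-- all the statements with the same constants -/
theorem final : ∃ C δ : ℝ, 0 < C ∧ 0 < δ ∧ ∀ N a : ℕ, 0 < N → 2 ∣ N → Squarefree N → a.Coprime N →
    (∀ n : ℕ, 1 ≤ n → ∀ V : Fin 4 → Finset ℕ, (∀ i, n ≤ (V i).card) → Loc3 N V →
      (((Fintype.piFinset V).filter (Bad N a)).card : ℝ) ≤
        C * (n : ℝ) ^ (-δ) * ∏ i, ((V i).card : ℝ)) ∧
    (∀ n : ℕ, 1 ≤ n → ∀ V : Fin 5 → Finset ℕ, (∀ i, n ≤ (V i).card) →
      (((Fintype.piFinset V).filter (Bad N a)).card : ℝ) ≤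
        C * (n : ℝ) ^ (-δ) * ∏ i, ((V i).card : ℝ)) ∧
    (∀ V : Finset ℕ, 1 ≤ V.card → Loc3 N (fun _ : Unit => V) →
      (1 / 3 - C * (V.card : ℝ) ^ (-δ)) * ((V.card : ℝ) ^ 2 / 2) ≤
      (((V ×ˢ V).filter (fun z => z.1 < z.2 ∧ IsGap N a (z.2 - z.1))).card : ℝ)) ∧
    (∀ V : Finset ℕ, 1 ≤ V.card →
      (1 / 4 - C * (V.card : ℝ) ^ (-δ)) * ((V.card : ℝ) ^ 2 / 2) ≤
      (((V ×ˢ V).filter (fun z => z.1 < z.2 ∧ IsGap N a (z.2 - z.1))).card : ℝ)) := by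
  obtain ⟨C₁, δ₁, hC₁, hδ₁, hδ₁', h₁⟩ := tup4
  obtain ⟨C₂, δ₂, hC₂, hδ₂, hδ₂', h₂⟩ := tup5
  obtain ⟨C₃, δ₃, hC₃, hδ₃, h₃⟩ := pairs_gen 2 (fun N W => Loc3 N (fun _ : Unit => W))
    ⟨C₁, δ₁, hC₁, hδ₁, fun N a hN h2 hsq ha W hW hL => by
      refine h₁ N a hN h2 hsq ha W.card hW (fun _ => W) (fun _ => le_rfl) ?_
      rcases hL with h | ⟨ρ, h5, h6⟩
      · exact Or.inl h
      · exact Or.inr ⟨ρ, h5, fun _ => h6 ()⟩⟩
  obtain ⟨C₄, δ₄, hC₄, hδ₄, h₄⟩ := pairs_gen 3 (fun _ _ => True)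
    ⟨C₂, δ₂, hC₂, hδ₂, fun N a hN h2 hsq ha W hW _ =>
      h₂ N a hN h2 hsq ha W.card hW (fun _ => W) (fun _ => le_rfl)⟩
  obtain ⟨C, hC⟩ : ∃ C, C = C₁ + C₂ + C₃ + C₄ := ⟨_, rfl⟩
  obtain ⟨δ, hδ⟩ : ∃ δ, δ = min (min δ₁ δ₂) (min δ₃ δ₄) := ⟨_, rfl⟩
  have d1 : δ ≤ δ₁ := hδ ▸ (min_le_left _ _).trans (min_le_left _ _)
  have d2 : δ ≤ δ₂ := hδ ▸ (min_le_left _ _).trans (min_le_right _ _)
  have d3 : δ ≤ δ₃ := hδ ▸ (min_le_right _ _).trans (min_le_left _ _)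
  have d4 : δ ≤ δ₄ := hδ ▸ (min_le_right _ _).trans (min_le_right _ _)
  refine ⟨C, δ, by linarith, hδ ▸ lt_min (lt_min hδ₁ hδ₂) (lt_min hδ₃ hδ₄), ?_⟩
  intro N a hN h2 hsq ha
  refine ⟨fun n hn V hV hL => ?_, fun n hn V hV => ?_, fun V hV hL => ?_, fun V hV => ?_⟩
  · refine (h₁ N a hN h2 hsq ha n hn V hV hL).trans ?_
    exact mul_le_mul_of_nonneg_right (mono_aux n hn _ _ _ _ (by linarith) hC₁ d1)
      (prod_nonneg fun i _ => Nat.cast_nonneg _)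
  · refine (h₂ N a hN h2 hsq ha n hn V hV).trans ?_
    exact mul_le_mul_of_nonneg_right (mono_aux n hn _ _ _ _ (by linarith) hC₂ d2)
      (prod_nonneg fun i _ => Nat.cast_nonneg _)
  · refine le_trans (mul_le_mul_of_nonneg_right ?_ (by positivity)) (h₃ N a hN h2 hsq ha V hV hL)
    have := mono_aux V.card hV C₃ C δ₃ δ (by linarith) hC₃ d3
    push_cast
    norm_num
    linarith
  · refine le_trans (mul_le_mul_of_nonneg_right ?_ (by positivity)) (h₄ N a hN h2 hsq ha V hV trivial)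
    have := mono_aux V.card hV C₄ C δ₄ δ (by linarith) hC₄ d4
    push_cast
    norm_num
    linarith

end Pool.Agent.Helper22K9
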