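import Mathlib
import Pool.Agent.Helper22K9.Gap

/-! Simultaneous gaps: several multiples of the differences of the elements of arbitrary finite sets
(helper22). -/

set_option autoImplicit false

namespace Pool.Agent.Helper22K9

open Finset Filter
open Pool.Agent.W59.GB Pool.Agent.H947R3.GM
open Pool.Agent.Y877 (IsGap exresA)

/-- In every colouring of the pairs of `R` points with `m` colours four points have pairs of one colour. -/
def Ramsey4 (m R : ℕ) : Prop := ∀ c : Fin R → Fin R → Fin m, (∀ i j, c i j = c j i) →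
  ∃ (e : Fin 4 ↪ Fin R) (k : Fin m), ∀ i j, i ≠ j → c (e i) (e j) = k

/-- four rows in residue classes, with a multiplier -/
theorem rows4b : ∃ K : ℕ, 1 ≤ K ∧ ∀ N a : ℕ, 0 < N → 6 ∣ N → Squarefree N → a.Coprime N →
    ∀ b : ℕ, 1 ≤ b → ∀ (A : Fin 4 → Fin K → ℕ) (r : Fin 4 → ℕ),
    Function.Injective (fun z : Fin 4 × Fin K => A z.1 z.2) →
    (∀ g i, A g i % (5 * K).factorial = r g) →
    ∃ g g' i i', g ≠ g' ∧ A g i < A g' i' ∧ IsGap N a (b * (A g' i' - A g i)) := by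
  classical
  obtain ⟨K, hK, H⟩ := Pool.Agent.Y877.four (Pool.Agent.W473.UBCB.main Pool.Agent.W25.UB.thmVG)
  refine ⟨K, hK, ?_⟩
  intro N a hN h6 hsq ha b hb A r hinj hr
  have h2 : 2 ∣ N := (by norm_num : 2 ∣ 6).trans h6
  have h3 : 3 ∣ N := (by norm_num : 3 ∣ 6).trans h6
  obtain ⟨g, g', i, i', h4, h5, h6⟩ := H N a hN h2 hsq ha (fun g i => b * A g i) ⟨(by
      rintro z z' h
      have h' : b * A z.1 z.2 = b * A z'.1 z'.2 := h
      exact hinj (Nat.eq_of_mul_eq_mul_left hb h')), by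
    intro p hp hpN
    have hp2 : p ≠ 2 := fun h => hpN (h ▸ h2)
    have hp3 : p ≠ 3 := fun h => hpN (h ▸ h3)
    have hp5 : 5 ≤ p := by
      have h1 := hp.two_le
      have : p ≠ 4 := fun h => by subst h; exact absurd hp (by decide)
      omega
    by_cases hpK : p ≤ 5 * K
    · obtain ⟨n, hn⟩ := exresA p ((univ : Finset (Fin 4)).image (fun g => (b * r g : ℤ))) (by
        refine card_image_le.trans_lt ?_
        rw [card_univ, Fintype.card_fin]; omega)
      refine ⟨n, fun g i h => hn (b * r g) (mem_image.2 ⟨g, mem_univ _, rfl⟩) ?_⟩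
      have h1 : (p : ℤ) ∣ (A g i : ℤ) - r g := by
        have h2 : (p : ℤ) ∣ ((5 * K).factorial : ℕ) := by
          exact_mod_cast (hp.dvd_factorial).2 hpK
        refine h2.trans ?_
        have h4 : ((r g : ℕ) : ℤ) = (A g i : ℤ) % ((5 * K).factorial : ℕ) := by
          rw [← hr g i]; push_cast; rfl
        rw [h4]
        exact Int.dvd_self_sub_emod
      have h2 : n + (b * r g : ℤ) = (n + ((b * A g i : ℕ) : ℤ)) - ((A g i : ℤ) - r g) * b := by
        push_cast; ring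
      rw [h2]
      exact dvd_sub h (h1.mul_right _)
    · obtain ⟨n, hn⟩ := exresA p ((univ : Finset (Fin 4 × Fin K)).image
        (fun z => ((b * A z.1 z.2 : ℕ) : ℤ))) (by
        refine card_image_le.trans_lt ?_
        rw [card_univ, Fintype.card_prod, Fintype.card_fin, Fintype.card_fin]; omega)
      exact ⟨n, fun g i h => hn _ (mem_image.2 ⟨(g, i), mem_univ _, rfl⟩) h⟩⟩
  have h5' : A g i < A g' i' := Nat.lt_of_mul_lt_mul_left h5
  refine ⟨g, g', i, i', h4, h5', fun η hη => ?_⟩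
  have h7 := nthB h6 η hη
  rw [← Nat.mul_sub] at h7
  exact h7

/-- no pair of entries is good for all the multipliers -/
def BadS (N a : ℕ) {m : ℕ} (b : Fin m → ℕ) {T : ℕ} (f : Fin T → ℕ) : Prop :=
  ∀ i j, f i < f j → ∃ k, ¬ IsGap N a (b k * (f j - f i))

open Classical in
theorem tupS (m R : ℕ) (hm : 1 ≤ m) (hR : Ramsey4 m R) :
    ∃ C δ : ℝ, 0 < C ∧ 0 < δ ∧ δ ≤ 1 ∧ ∀ N a : ℕ, 0 < N → 6 ∣ N → Squarefree N → a.Coprime N →
      ∀ b : Fin m → ℕ, (∀ k, 1 ≤ b k) →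
      ∀ n : ℕ, 1 ≤ n → ∀ V : Fin R → Finset ℕ, (∀ i, n ≤ (V i).card) →
      (((Fintype.piFinset V).filter (fun f => BadS N a b f)).card : ℝ) ≤
        C * (n : ℝ) ^ (-δ) * ∏ i, ((V i).card : ℝ) := by
  obtain ⟨K, hK, H⟩ := rows4b
  obtain ⟨C, δ, hC, hδ, hδ1, h⟩ := tuples R K (5 * K).factorial (Nat.factorial_pos _)
  have : NeZero m := ⟨by omega⟩
  set X : Finset (Fin R → Fin R → Fin m) := univ.filter (fun χ => ∀ i j, χ i j = χ j i) with hX
  refine ⟨((X.card : ℝ) + 1) * C, δ, by positivity, hδ, hδ1, ?_⟩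
  intro N a hN h6 hsq ha b hb n hn V hV
  set B : (Fin R → Fin R → Fin m) → Finset (Fin R → ℕ) := fun χ =>
    (Fintype.piFinset V).filter (fun f => ∀ i j, f i < f j → ¬ IsGap N a (b (χ i j) * (f j - f i))) with hB
  have hB1 : ∀ χ ∈ X, ((B χ).card : ℝ) ≤ C * (n : ℝ) ^ (-δ) * ∏ i, ((V i).card : ℝ) := by
    intro χ hχ
    refine h n hn V hV (B χ) (filter_subset _ _) ?_
    intro A r hinj hr
    by_contra hcon
    push Not at hcon
    obtain ⟨e, k, hek⟩ := hR χ (mem_filter.1 hχ).2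
    have hmem : ∀ c : Fin R → Fin K, ∀ i j, A i (c i) < A j (c j) →
        ¬ IsGap N a (b (χ i j) * (A j (c j) - A i (c i))) := by
      intro c
      have := hcon c
      rw [hB, mem_filter] at this
      exact this.2
    obtain ⟨g, g', i, i', h3, h4, h5⟩ := H N a hN h6 hsq ha (b k) (hb k) (fun g i => A (e g) i)
      (fun g => r (e g)) (by
        rintro ⟨g, i⟩ ⟨g', i'⟩ h
        have h1 : ((e g, i) : Fin R × Fin K) = (e g', i') := hinj h
        rw [Prod.mk.injEq] at h1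
        rw [e.injective h1.1, h1.2]) (fun g i => hr _ _)
    have hne : e g ≠ e g' := fun h => h3 (e.injective h)
    have h6' := hmem (Function.update (fun _ => i) (e g') i') (e g) (e g')
    rw [hek g g' h3] at h6'
    simp only [Function.update_self, Function.update_of_ne hne] at h6'
    exact h6' h4 h5
  have hcov : (Fintype.piFinset V).filter (fun f => BadS N a b f) ⊆ X.biUnion B := by
    intro f hf
    obtain ⟨hf1, hf2⟩ := mem_filter.1 hf
    have hex : ∀ i j : Fin R, ∃ k : Fin m, f i < f j → ¬ IsGap N a (b k * (f j - f i)) := by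
      intro i j
      by_cases hij : f i < f j
      · obtain ⟨k, hk⟩ := hf2 i j hij
        exact ⟨k, fun _ => hk⟩
      · exact ⟨0, fun h => absurd h hij⟩
    choose κ hκ using hex
    refine mem_biUnion.2 ⟨fun i j => if f i < f j then κ i j else if f j < f i then κ j i else 0, ?_, ?_⟩
    · refine mem_filter.2 ⟨mem_univ _, fun i j => ?_⟩
      show (if f i < f j then κ i j else if f j < f i then κ j i else 0) =
        (if f j < f i then κ j i else if f i < f j then κ i j else 0)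
      rcases lt_trichotomy (f i) (f j) with h1 | h1 | h1
      · rw [if_pos h1, if_neg (not_lt.2 h1.le), if_pos h1]
      · simp [h1]
      · rw [if_neg (not_lt.2 h1.le), if_pos h1, if_pos h1]
    · refine mem_filter.2 ⟨hf1, fun i j hij => ?_⟩
      show ¬ IsGap N a (b (if f i < f j then κ i j else if f j < f i then κ j i else 0) * (f j - f i))
      rw [if_pos hij]
      exact hκ i j hij
  have hnn : 0 ≤ C * (n : ℝ) ^ (-δ) * ∏ i, ((V i).card : ℝ) := by
    have h1 : 0 ≤ (n : ℝ) ^ (-δ) := Real.rpow_nonneg (Nat.cast_nonneg _) _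
    have h2 : 0 ≤ ∏ i, ((V i).card : ℝ) := prod_nonneg fun i _ => Nat.cast_nonneg _
    exact mul_nonneg (mul_nonneg hC.le h1) h2
  obtain ⟨Y, hY⟩ : ∃ Y, Y = C * (n : ℝ) ^ (-δ) * ∏ i, ((V i).card : ℝ) := ⟨_, rfl⟩
  rw [← hY] at hnn
  have hB2 : ∀ χ ∈ X, ((B χ).card : ℝ) ≤ Y := by rw [hY]; exact hB1
  calc (((Fintype.piFinset V).filter (fun f => BadS N a b f)).card : ℝ)
      ≤ ∑ χ ∈ X, ((B χ).card : ℝ) := by exact_mod_cast (card_le_card hcov).trans card_biUnion_le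
    _ ≤ ∑ _χ ∈ X, Y := sum_le_sum hB2
    _ = X.card * Y := by rw [sum_const, nsmul_eq_mul]
    _ ≤ ((X.card : ℝ) + 1) * Y := by linarith
    _ = _ := by rw [hY]; ring

theorem four_le (m R : ℕ) (hm : 1 ≤ m) (hR : Ramsey4 m R) : 4 ≤ R := by
  have : NeZero m := ⟨by omega⟩
  obtain ⟨e, -, -⟩ := hR (fun _ _ => 0) (fun _ _ => rfl)
  have := Fintype.card_le_of_injective e e.injective
  rwa [Fintype.card_fin, Fintype.card_fin] at this

open Classical in
theorem pairsS (m R : ℕ) (hm : 1 ≤ m) (hR : Ramsey4 m R) :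
    ∃ C δ : ℝ, 0 < C ∧ 0 < δ ∧ ∀ N a : ℕ, 0 < N → 6 ∣ N → Squarefree N → a.Coprime N →
      ∀ b : Fin m → ℕ, (∀ k, 1 ≤ b k) → ∀ V : Finset ℕ, 1 ≤ V.card →
      (1 / ((R : ℝ) - 1) - C * (V.card : ℝ) ^ (-δ)) * ((V.card : ℝ) ^ 2 / 2) ≤
      (((V ×ˢ V).filter (fun z => z.1 < z.2 ∧ ∀ k, IsGap N a (b k * (z.2 - z.1)))).card : ℝ) := by
  obtain ⟨C, δ, hC, hδ, -, h⟩ := tupS m R hm hR
  have h4 := four_le m R hm hR
  obtain ⟨t, rfl⟩ : ∃ t, R = t + 2 := ⟨R - 2, by omega⟩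
  obtain ⟨C', hC', h'⟩ := pairs t
  refine ⟨C' * C, δ, by positivity, hδ, ?_⟩
  intro N a hN h6 hsq ha b hb V hV
  have h1 := h N a hN h6 hsq ha b hb V.card hV (fun _ => V) (fun _ => le_rfl)
  rw [prod_const, card_univ, Fintype.card_fin] at h1
  have hsub : clq V (Rel (fun y z => y < z ∧ ∀ k, IsGap N a (b k * (z - y)))) (t + 2) ⊆
      (Fintype.piFinset (fun _ : Fin (t + 2) => V)).filter (fun f => BadS N a b f) := by
    intro f hf
    rw [mem_clq] at hf
    rw [mem_filter, Fintype.mem_piFinset]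
    refine ⟨hf.1, fun i j hij => ?_⟩
    have hne : i ≠ j := by rintro rfl; omega
    by_contra hc
    push Not at hc
    exact (hf.2 i j hne).1 ⟨hij, hc⟩
  have h3 := h' V (fun y z => y < z ∧ ∀ k, IsGap N a (b k * (z - y))) (fun x y h => h.1)
    (C * (V.card : ℝ) ^ (-δ)) (le_trans (by rw [Nat.cast_le]; exact card_le_card hsub) h1)
  have e : ((t + 2 : ℕ) : ℝ) - 1 = (t : ℝ) + 1 := by push_cast; ring
  rw [mul_assoc, e]
  convert h3

open Classical in
/-- initial segments -/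
theorem segS (m R : ℕ) (hm : 1 ≤ m) (hR : Ramsey4 m R) (ε : ℝ) (hε : 0 < ε) :
    ∃ H₀ : ℕ, ∀ N a : ℕ, 0 < N → 6 ∣ N → Squarefree N → a.Coprime N →
      ∀ b : Fin m → ℕ, (∀ k, 1 ≤ b k) → ∀ H : ℕ, H₀ ≤ H →
      (1 / (2 * ((R : ℝ) - 1)) - ε) * (H : ℝ) ≤
      (((Icc 1 H).filter (fun d => ∀ k, IsGap N a (b k * d))).card : ℝ) := by
  obtain ⟨C, δ, hC, hδ, h⟩ := pairsS m R hm hR
  have h4 := four_le m R hm hR
  have htend : Tendsto (fun H : ℕ => C * (H : ℝ) ^ (-δ)) atTop (nhds 0) := by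
    have h1 := (tendsto_rpow_neg_atTop hδ).comp tendsto_natCast_atTop_atTop
    have h2 := h1.const_mul C
    rw [mul_zero] at h2
    exact h2
  have hev := (htend.eventually (gt_mem_nhds (show (0 : ℝ) < ε by exact hε))).and (eventually_ge_atTop 1)
  obtain ⟨H₀, hH₀⟩ := eventually_atTop.1 hev
  refine ⟨H₀, ?_⟩
  intro N a hN h6 hsq ha b hb H hH
  obtain ⟨h5, h7⟩ := hH₀ H hH
  have hcard : (Icc 1 H).card = H := by rw [Nat.card_Icc]; omega
  have h8 := h N a hN h6 hsq ha b hb (Icc 1 H) (by rw [hcard]; exact h7)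
  rw [hcard] at h8
  set Gd : Finset ℕ := (Icc 1 H).filter (fun d => ∀ k, IsGap N a (b k * d)) with hGd
  have h9 : ((Icc 1 H ×ˢ Icc 1 H).filter
      (fun z : ℕ × ℕ => z.1 < z.2 ∧ ∀ k, IsGap N a (b k * (z.2 - z.1)))).card ≤ (Icc 1 H ×ˢ Gd).card := by
    refine card_le_card_of_injOn (fun z => (z.1, z.2 - z.1)) ?_ ?_
    · intro z hz
      obtain ⟨h10, h11, h12⟩ := mem_filter.1 (mem_coe.1 hz)
      rw [mem_product, mem_Icc, mem_Icc] at h10
      refine mem_coe.2 (mem_product.2 ⟨mem_Icc.2 h10.1, mem_filter.2 ⟨mem_Icc.2 ⟨?_, ?_⟩, h12⟩⟩)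
      · show 1 ≤ z.2 - z.1
        omega
      · show z.2 - z.1 ≤ H
        omega
    · intro z hz w hw hzw
      have h11 := (mem_filter.1 (mem_coe.1 hz)).2.1
      have h12 := (mem_filter.1 (mem_coe.1 hw)).2.1
      have e1 : z.1 = w.1 := (Prod.mk.inj hzw).1
      have e2 : z.2 - z.1 = w.2 - w.1 := (Prod.mk.inj hzw).2
      exact Prod.ext e1 (by omega)
  rw [card_product, hcard] at h9
  have h10 : (((Icc 1 H ×ˢ Icc 1 H).filter
      (fun z : ℕ × ℕ => z.1 < z.2 ∧ ∀ k, IsGap N a (b k * (z.2 - z.1)))).card : ℝ) ≤ H * (Gd.card : ℝ) := by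
    exact_mod_cast h9
  have hH0 : (0 : ℝ) < H := by exact_mod_cast h7
  have hR0 : (0 : ℝ) < (R : ℝ) - 1 := by
    have : (4 : ℝ) ≤ R := by exact_mod_cast h4
    linarith
  have h11 : (1 / ((R : ℝ) - 1) - ε) * ((H : ℝ) ^ 2 / 2) ≤ H * (Gd.card : ℝ) := by
    refine le_trans ?_ (h8.trans h10)
    refine mul_le_mul_of_nonneg_right ?_ (by positivity)
    linarith
  have h12 : (1 / ((R : ℝ) - 1) - ε) * ((H : ℝ) / 2) ≤ (Gd.card : ℝ) := by
    have : H * ((1 / ((R : ℝ) - 1) - ε) * ((H : ℝ) / 2)) ≤ H * (Gd.card : ℝ) := by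
      calc _ = (1 / ((R : ℝ) - 1) - ε) * ((H : ℝ) ^ 2 / 2) := by ring
        _ ≤ _ := h11
    exact le_of_mul_le_mul_left this hH0
  refine le_trans ?_ h12
  have e : 1 / (2 * ((R : ℝ) - 1)) = 1 / ((R : ℝ) - 1) / 2 := by
    rw [div_div, mul_comm]
  rw [e]
  nlinarith

end Pool.Agent.Helper22K9
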