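import Mathlib
import Pool.Agent.H730R3.Ramsey
import Pool.Agent.Helper22K9.Sim

/-! Ramsey numbers: `R(4,4) ≤ 18`, and existence for several colours (helper22). -/

set_option autoImplicit false

namespace Pool.Agent.Helper22K9

open Finset

/-- a clique of size `k` of the relation `r` in `V` -/
def HasC {α : Type} (r : α → α → Prop) (V : Finset α) (k : ℕ) : Prop :=
  ∃ S ⊆ V, S.card = k ∧ ∀ x ∈ S, ∀ y ∈ S, x ≠ y → r x y

variable {α : Type}

theorem HasC.mono {r : α → α → Prop} {V W : Finset α} {k : ℕ} (h : HasC r V k) (hVW : V ⊆ W) :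
    HasC r W k := by
  obtain ⟨S, h1, h2⟩ := h
  exact ⟨S, h1.trans hVW, h2⟩

open Classical in
/-- neighbourhood -/
noncomputable def nbr (r : α → α → Prop) (V : Finset α) (x : α) : Finset α :=
  V.filter (fun y => x ≠ y ∧ r x y)

theorem mem_nbr {r : α → α → Prop} {V : Finset α} {x y : α} :
    y ∈ nbr r V x ↔ y ∈ V ∧ x ≠ y ∧ r x y := by
  classical
  simp [nbr]

theorem HasC.step {r : α → α → Prop} (hr : ∀ x y, r x y → r y x) {V : Finset α} {x : α} (hx : x ∈ V) {k : ℕ}
    (h : HasC r (nbr r V x) k) : HasC r V (k + 1) := by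
  classical
  obtain ⟨S, h1, h2, h3⟩ := h
  have hxS : x ∉ S := fun hx => (mem_nbr.1 (h1 hx)).2.1 rfl
  refine ⟨insert x S, insert_subset hx (h1.trans fun y hy => (mem_nbr.1 hy).1),
    by rw [card_insert_of_notMem hxS, h2], ?_⟩
  intro y hy z hz hyz
  rcases mem_insert.1 hy with rfl | hy'
  · rcases mem_insert.1 hz with rfl | hz'
    · exact absurd rfl hyz
    · exact (mem_nbr.1 (h1 hz')).2.2
  · rcases mem_insert.1 hz with rfl | hz'
    · exact hr _ _ (mem_nbr.1 (h1 hy')).2.2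
    · exact h3 y hy' z hz' hyz

theorem card_nbr (r : α → α → Prop) (V : Finset α) (x : α) (hx : x ∈ V) :
    (nbr r V x).card + (nbr (fun a b => ¬ r a b) V x).card + 1 = V.card := by
  classical
  have h1 : V.erase x = nbr r V x ∪ nbr (fun a b => ¬ r a b) V x := by
    ext y
    rw [mem_union, mem_nbr, mem_nbr, mem_erase]
    constructor
    · rintro ⟨h1, h2⟩
      by_cases h : r x y
      · exact Or.inl ⟨h2, h1.symm, h⟩
      · exact Or.inr ⟨h2, h1.symm, h⟩
    · rintro (⟨h1, h2, -⟩ | ⟨h1, h2, -⟩)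
      · exact ⟨h2.symm, h1⟩
      · exact ⟨h2.symm, h1⟩
  have h2 : Disjoint (nbr r V x) (nbr (fun a b => ¬ r a b) V x) := by
    rw [disjoint_left]
    intro y hy hy'
    exact (mem_nbr.1 hy').2.2 (mem_nbr.1 hy).2.2
  rw [← card_union_of_disjoint h2, ← h1, card_erase_add_one hx]

theorem ram2 (r : α → α → Prop) (hr : ∀ x y, r x y → r y x) (t : ℕ) (V : Finset α) (hV : t ≤ V.card) :
    HasC r V 2 ∨ HasC (fun a b => ¬ r a b) V t := by
  classical
  by_cases h : ∃ x ∈ V, ∃ y ∈ V, x ≠ y ∧ r x y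
  · obtain ⟨x, hx, y, hy, hxy, h⟩ := h
    refine Or.inl ⟨{x, y}, ?_, card_pair hxy, ?_⟩
    · intro z hz
      rcases mem_insert.1 hz with rfl | hz
      · exact hx
      · rw [mem_singleton.1 hz]; exact hy
    · intro z hz w hw hzw
      rw [mem_insert, mem_singleton] at hz hw
      rcases hz with hz | hz <;> rcases hw with hw | hw
      · exact absurd (hz.trans hw.symm) hzw
      · rw [hz, hw]; exact h
      · rw [hz, hw]; exact hr _ _ h
      · exact absurd (hz.trans hw.symm) hzw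
  · push Not at h
    obtain ⟨S, hS, hSc⟩ := exists_subset_card_eq hV
    exact Or.inr ⟨S, hS, hSc, fun x hx y hy hxy => h x (hS hx) y (hS hy) hxy⟩

theorem nn (r : α → α → Prop) : (fun a b => ¬ ¬ r a b) = r := by
  funext a b
  exact propext not_not

theorem ram33 (r : α → α → Prop) (hr : ∀ x y, r x y → r y x) (V : Finset α) (hV : 6 ≤ V.card) :
    HasC r V 3 ∨ HasC (fun a b => ¬ r a b) V 3 := by
  obtain ⟨x, hx⟩ : V.Nonempty := by rw [← card_pos]; omega
  have h1 := card_nbr r V x hx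
  have hr' : ∀ x y, ¬ r x y → ¬ r y x := fun x y h h' => h (hr _ _ h')
  by_cases h : 3 ≤ (nbr r V x).card
  · rcases ram2 r hr 3 _ h with h2 | h2
    · exact Or.inl (h2.step hr hx)
    · exact Or.inr (h2.mono fun y hy => (mem_nbr.1 hy).1)
  · rcases ram2 (fun a b => ¬ r a b) hr' 3 (nbr (fun a b => ¬ r a b) V x) (by omega) with h2 | h2
    · exact Or.inr (h2.step hr' hx)
    · rw [nn] at h2
      exact Or.inl (h2.mono fun y hy => (mem_nbr.1 hy).1)

theorem ram34 (r : α → α → Prop) (hr : ∀ x y, r x y → r y x) (V : Finset α) (hV : 9 ≤ V.card) :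
    HasC r V 3 ∨ HasC (fun a b => ¬ r a b) V 4 := by
  classical
  obtain ⟨W, hW, hWc⟩ := exists_subset_card_eq hV
  suffices h : HasC r W 3 ∨ HasC (fun a b => ¬ r a b) W 4 from
    h.imp (fun h => h.mono hW) (fun h => h.mono hW)
  have hr' : ∀ x y, ¬ r x y → ¬ r y x := fun x y h h' => h (hr _ _ h')
  by_cases h4 : ∃ x ∈ W, 4 ≤ (nbr r W x).card
  · obtain ⟨x, hx, h⟩ := h4
    rcases ram2 r hr 4 _ h with h2 | h2
    · exact Or.inl (h2.step hr hx)
    · exact Or.inr (h2.mono fun y hy => (mem_nbr.1 hy).1)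
  by_cases h6 : ∃ x ∈ W, 6 ≤ (nbr (fun a b => ¬ r a b) W x).card
  · obtain ⟨x, hx, h⟩ := h6
    rcases ram33 r hr _ h with h2 | h2
    · exact Or.inl (h2.mono fun y hy => (mem_nbr.1 hy).1)
    · exact Or.inr (h2.step hr' hx)
  exfalso
  push Not at h4 h6
  have h3 : ∀ x ∈ W, (nbr r W x).card = 3 := by
    intro x hx
    have h1 := card_nbr r W x hx
    have h2 := h4 x hx
    have h5 := h6 x hx
    omega
  -- the number of the ordered pairs is even
  set E : Finset (α × α) := (W ×ˢ W).filter (fun z => z.1 ≠ z.2 ∧ r z.1 z.2) with hE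
  have hE1 : E.card = 27 := by
    have e1 : E.card = ∑ x ∈ W, (nbr r W x).card := by
      rw [hE, card_filter, sum_product]
      refine sum_congr rfl fun x _ => ?_
      rw [nbr, card_filter]
    rw [e1, sum_congr rfl h3, sum_const, hWc]
    rfl
  have hE2 : ((E.card : ℕ) : ZMod 2) = 0 := by
    rw [card_eq_sum_ones, Nat.cast_sum]
    refine sum_involution (fun z _ => (z.2, z.1)) ?_ ?_ ?_ ?_
    · intro z _
      decide
    · intro z hz _ h
      have h1 := (mem_filter.1 hz).2.1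
      have h2 : z.2 = z.1 := congrArg Prod.fst h
      exact h1 h2.symm
    · intro z hz
      obtain ⟨h1, h2, h3⟩ := mem_filter.1 hz
      rw [mem_product] at h1
      exact mem_filter.2 ⟨mem_product.2 ⟨h1.2, h1.1⟩, h2.symm, hr _ _ h3⟩
    · intro z _
      rfl
  rw [hE1] at hE2
  exact absurd hE2 (by decide)

theorem ram44 (r : α → α → Prop) (hr : ∀ x y, r x y → r y x) (V : Finset α) (hV : 18 ≤ V.card) :
    HasC r V 4 ∨ HasC (fun a b => ¬ r a b) V 4 := by
  obtain ⟨x, hx⟩ : V.Nonempty := by rw [← card_pos]; omega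
  have h1 := card_nbr r V x hx
  have hr' : ∀ x y, ¬ r x y → ¬ r y x := fun x y h h' => h (hr _ _ h')
  by_cases h : 9 ≤ (nbr r V x).card
  · rcases ram34 r hr _ h with h2 | h2
    · exact Or.inl (h2.step hr hx)
    · exact Or.inr (h2.mono fun y hy => (mem_nbr.1 hy).1)
  · rcases ram34 (fun a b => ¬ r a b) hr' (nbr (fun a b => ¬ r a b) V x) (by omega) with h2 | h2
    · exact Or.inr (h2.step hr' hx)
    · rw [nn] at h2
      exact Or.inl (h2.mono fun y hy => (mem_nbr.1 hy).1)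

theorem ramsey4_one : Ramsey4 1 4 := by
  intro c _
  exact ⟨Function.Embedding.refl _, 0, fun i j _ => Subsingleton.elim _ _⟩

theorem ramsey4_two : Ramsey4 2 18 := by
  intro c hc
  have hcard : 18 ≤ (univ : Finset (Fin 18)).card := by rw [card_univ, Fintype.card_fin]
  rcases ram44 (fun i j => c i j = 0) (fun i j h => by rw [hc]; exact h) univ hcard with
    ⟨S, -, hS, h⟩ | ⟨S, -, hS, h⟩
  · refine ⟨(S.orderEmbOfFin hS).toEmbedding, 0, fun i j hij => ?_⟩
    exact h _ (S.orderEmbOfFin_mem hS i) _ (S.orderEmbOfFin_mem hS j)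
      fun h' => hij ((S.orderEmbOfFin hS).injective h')
  · refine ⟨(S.orderEmbOfFin hS).toEmbedding, 1, fun i j hij => ?_⟩
    have h1 := h _ (S.orderEmbOfFin_mem hS i) _ (S.orderEmbOfFin_mem hS j)
      fun h' => hij ((S.orderEmbOfFin hS).injective h')
    have h2 : ∀ k : Fin 2, ¬ k = 0 → k = 1 := by decide
    exact h2 _ h1

theorem ramsey4_exists (m : ℕ) (hm : 1 ≤ m) : ∃ R, Ramsey4 m R := by
  have : NeZero m := ⟨by omega⟩
  obtain ⟨R, hR⟩ := Pool.Agent.H730R3.ramsey (Fin m) 4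
  refine ⟨R, fun c hc => ?_⟩
  obtain ⟨S, -, hS, γ, h⟩ := hR (Fin R) c univ (by rw [card_univ, Fintype.card_fin])
  refine ⟨(S.orderEmbOfFin hS).toEmbedding, γ, fun i j hij => ?_⟩
  have hne : S.orderEmbOfFin hS i ≠ S.orderEmbOfFin hS j := fun h' => hij ((S.orderEmbOfFin hS).injective h')
  rcases lt_or_gt_of_ne hne with h1 | h1
  · exact h _ (S.orderEmbOfFin_mem hS i) _ (S.orderEmbOfFin_mem hS j) h1
  · show c (S.orderEmbOfFin hS i) (S.orderEmbOfFin hS j) = γ
    rw [hc]
    exact h _ (S.orderEmbOfFin_mem hS j) _ (S.orderEmbOfFin_mem hS i) h1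

end Pool.Agent.Helper22K9
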