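import Mathlib
import Pool.Agent.TH899.UG.TD6
import Pool.Agent.Helper22K9.Gap

/-! A third of the first `H` multiples of every even number are gaps between consecutive primes, `H ≥ H₀(ε)`
(helper22; after `Pool.Agent.TH899.UG.TD.thirdq`). -/

set_option autoImplicit false

namespace Pool.Agent.Helper22K9

open Finset Filter
open Pool.Agent.W59.GB Pool.Agent.H947R3.GM
open Pool.Agent.TH899.UG.TD (quad QQ PP emb pig)
open Pool.Agent.TH899.UG (box_pow)
open Pool.Agent.Y877 (IsGap exresA)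

/-- four rows in two classes modulo `3`, with a multiplier -/
theorem rows4c : ∃ K : ℕ, 1 ≤ K ∧ ∀ N a : ℕ, 0 < N → 2 ∣ N → Squarefree N → a.Coprime N →
    ∀ b c : ℕ, 1 ≤ b → (c = 1 ∨ c = 2) → ∀ (A : Fin 4 → Fin K → ℕ) (r : Fin 4 → ℕ),
    Function.Injective (fun z : Fin 4 × Fin K => A z.1 z.2) →
    (∀ g i, A g i % (4 * K).factorial = r g) → (∀ g i, A g i % 3 = 0 ∨ A g i % 3 = c) →
    ∃ g g' i i', g ≠ g' ∧ A g i < A g' i' ∧ IsGap N a (b * (A g' i' - A g i)) := by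
  classical
  obtain ⟨K, hK, H⟩ := Pool.Agent.Y877.four (Pool.Agent.W473.UBCB.main Pool.Agent.W25.UB.thmVG)
  refine ⟨K, hK, ?_⟩
  intro N a hN h2 hsq ha b c hb hc A r hinj hr h3
  obtain ⟨g, g', i, i', h4, h5, h6⟩ := H N a hN h2 hsq ha (fun g i => b * A g i) ⟨(by
      rintro z z' h
      have h' : b * A z.1 z.2 = b * A z'.1 z'.2 := h
      exact hinj (Nat.eq_of_mul_eq_mul_left hb h')), by
    intro p hp hpN
    have hp2 : p ≠ 2 := fun h => hpN (h ▸ h2)
    by_cases hp3 : p = 3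
    · subst hp3
      by_cases hb3 : 3 ∣ b
      · refine ⟨1, fun g i h => ?_⟩
        have h1 : ((3 : ℕ) : ℤ) ∣ ((b * A g i : ℕ) : ℤ) := by exact_mod_cast hb3.mul_right _
        have h2 : (1 : ℤ) = (1 + ((b * A g i : ℕ) : ℤ)) - ((b * A g i : ℕ) : ℤ) := by ring
        have h4 : ((3 : ℕ) : ℤ) ∣ 1 := by
          rw [h2]
          exact dvd_sub h h1
        omega
      · -- the missing class is `2 c`
        refine ⟨-(b * (2 * c) : ℕ), fun g i h => ?_⟩
        have h1 : ((3 : ℕ) : ℤ) ∣ (b : ℤ) * ((A g i : ℤ) - 2 * c) := by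
          have e : (b : ℤ) * ((A g i : ℤ) - 2 * c) = -((b * (2 * c) : ℕ) : ℤ) + ((b * A g i : ℕ) : ℤ) := by
            push_cast; ring
          rw [e]; exact h
        rcases (Nat.prime_iff_prime_int.1 Nat.prime_three).dvd_or_dvd h1 with h4 | h4
        · exact hb3 (by exact_mod_cast h4)
        · have h5 := h3 g i
          push_cast at h4
          omega
    have hp5 : 5 ≤ p := by
      have h1 := hp.two_le
      have : p ≠ 4 := fun h => by subst h; exact absurd hp (by decide)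
      omega
    by_cases hpK : p ≤ 4 * K
    · obtain ⟨n, hn⟩ := exresA p ((univ : Finset (Fin 4)).image (fun g => (b * r g : ℤ))) (by
        refine card_image_le.trans_lt ?_
        rw [card_univ, Fintype.card_fin]; omega)
      refine ⟨n, fun g i h => hn (b * r g) (mem_image.2 ⟨g, mem_univ _, rfl⟩) ?_⟩
      have h1 : (p : ℤ) ∣ (A g i : ℤ) - r g := by
        have h2 : (p : ℤ) ∣ ((4 * K).factorial : ℕ) := by
          exact_mod_cast (hp.dvd_factorial).2 hpK
        refine h2.trans ?_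
        have h4 : ((r g : ℕ) : ℤ) = (A g i : ℤ) % ((4 * K).factorial : ℕ) := by
          rw [← hr g i]; push_cast; rfl
        rw [h4]
        exact Int.dvd_self_sub_emod
      have h2 : n + (b * r g : ℤ) = (n + ((b * A g i : ℕ) : ℤ)) - ((A g i : ℤ) - r g) * b := by
        push_cast; ring
      rw [h2]
      exact dvd_sub h (h1.mul_right _)
    · obtain ⟨n, hn⟩ := exresA p ((univ : Finset (Fin 4 × Fin K)).image
        (fun z => ((b * A z.1 z.2 : ℕ) : ℤ))) (by
        refine card_image_le.trans_lt ?_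
        rw [card_univ, Fintype.card_prod, Fintype.card_fin, Fintype.card_fin]; omega)
      exact ⟨n, fun g i h => hn _ (mem_image.2 ⟨(g, i), mem_univ _, rfl⟩) h⟩⟩
  have h5' : A g i < A g' i' := Nat.lt_of_mul_lt_mul_left h5
  refine ⟨g, g', i, i', h4, h5', fun η hη => ?_⟩
  have h7 := nthB h6 η hη
  rw [← Nat.mul_sub] at h7
  exact h7

open Classical in
theorem thirdU (ε : ℝ) (hε : 0 < ε) : ∃ H₀ : ℕ, ∀ N a : ℕ, 0 < N → 2 ∣ N → Squarefree N → a.Coprime N →
    ∀ b : ℕ, 1 ≤ b → ∀ H : ℕ, H₀ ≤ H →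
    (1 / 3 - ε) * (H : ℝ) ≤ (((Icc 1 H).filter (fun k : ℕ => IsGap N a (b * k))).card : ℝ) := by
  obtain ⟨K, hK, HC⟩ := rows4c
  obtain ⟨W, hW⟩ : ∃ W, W = (4 * K).factorial := ⟨_, rfl⟩
  have hW0 : 0 < W := by rw [hW]; exact Nat.factorial_pos _
  obtain ⟨C₁, E, hC₁, HB⟩ := box_pow (W * K) 4
  obtain ⟨e, he⟩ : ∃ e, e = min ε 1 := ⟨_, rfl⟩
  have he0 : 0 < e := by rw [he]; positivity
  have he1 : e ≤ 1 := by rw [he]; exact min_le_right _ _
  have heε : e ≤ ε := by rw [he]; exact min_le_left _ _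
  obtain ⟨ε₂, hε₂⟩ : ∃ ε₂ : ℝ, ε₂ = (e / 16) ^ 3 / 625 := ⟨_, rfl⟩
  have hε₂0 : 0 < ε₂ := by rw [hε₂]; positivity
  have hε₂1 : ε₂ ≤ 1 := by
    have h1 : (e / 16) ^ 3 ≤ 1 := pow_le_one₀ (by positivity) (by linarith)
    rw [hε₂]; linarith
  obtain ⟨R₁, hR₁⟩ := exists_nat_ge (C₁ / ε₂ ^ E)
  obtain ⟨R₂, hR₂⟩ := exists_nat_ge (16 / e)
  refine ⟨R₁ + R₂ + 10, fun N a hN h2 hsq ha b hb H hCH => ?_⟩
  by_contra hcon
  push Not at hcon
  obtain ⟨B, hBdef⟩ : ∃ B, B = (Icc 1 H).filter (fun k : ℕ => ¬ IsGap N a (b * k)) := ⟨_, rfl⟩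
  have hsum : ((Icc 1 H).filter (fun k : ℕ => IsGap N a (b * k))).card + B.card = H := by
    rw [hBdef, card_filter_add_card_filter_not, Nat.card_Icc, Nat.add_sub_cancel]
  have hBI : B ⊆ Icc 1 H := by rw [hBdef]; exact filter_subset _ _
  have hsumr : ((((Icc 1 H).filter (fun k : ℕ => IsGap N a (b * k))).card : ℕ) : ℝ) +
      (B.card : ℝ) = H := by exact_mod_cast hsum
  have hH0 : (0 : ℝ) ≤ H := Nat.cast_nonneg _
  have hBr : (2 / 3 + e) * (H : ℝ) ≤ B.card := by nlinarith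
  have hR1H : C₁ / ε₂ ^ E ≤ (H : ℝ) := hR₁.trans (by exact_mod_cast (by omega : R₁ ≤ H))
  have hR2H : 16 / e ≤ (H : ℝ) := hR₂.trans (by exact_mod_cast (by omega : R₂ ≤ H))
  have heH : 16 ≤ e * H := by
    rw [div_le_iff₀ he0] at hR2H
    linarith
  obtain ⟨R, hR⟩ : ∃ R, R = ⌊e * H / 8⌋₊ := ⟨_, rfl⟩
  have hRu : (R : ℝ) ≤ e * H / 8 := by rw [hR]; exact Nat.floor_le (by positivity)
  have hRl : e * H / 16 ≤ (R : ℝ) := by
    have h1 : e * H / 8 < (R : ℝ) + 1 := by rw [hR]; exact Nat.lt_floor_add_one _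
    linarith
  have hR1 : 1 ≤ R := by
    have h1 : (1 : ℝ) ≤ R := by linarith
    exact_mod_cast h1
  obtain ⟨c, hc, hq'⟩ := quad H R R hR1 B hBI (by
    have h1 : (2 * H + 9 * R + 3 * R + 20 : ℝ) ≤ 3 * B.card := by nlinarith
    exact_mod_cast h1)
  have hcount : ε₂ * ∏ i : Fin 4, (((fun _ : Fin 4 => range (5 * H)) i).card : ℝ) ≤
      (((Fintype.piFinset (fun _ : Fin 4 => range (5 * H))).filter (fun f => PP B c f)).card : ℝ) := by
    have h1 : ∏ i : Fin 4, (((fun _ : Fin 4 => range (5 * H)) i).card : ℝ) = (5 * H) ^ 4 := by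
      simp only [card_range, prod_const, card_univ, Fintype.card_fin]
      push_cast
      ring
    rw [h1]
    have h2 : (H : ℝ) * (QQ H B c).card ≤
      (((Fintype.piFinset (fun _ : Fin 4 => range (5 * H))).filter (fun f => PP B c f)).card : ℝ) := by
      exact_mod_cast emb H c B
    refine le_trans ?_ h2
    have h3 : (R : ℝ) * (R * R) ≤ (QQ H B c).card := by exact_mod_cast hq'
    have h4 : (e * H / 16) ^ 3 ≤ (R : ℝ) ^ 3 := by gcongr
    have h5 : (R : ℝ) ^ 3 = R * (R * R) := by ring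
    have h6 : ε₂ * (5 * (H : ℝ)) ^ 4 = H * (e * H / 16) ^ 3 := by rw [hε₂]; ring
    rw [h6]
    exact mul_le_mul_of_nonneg_left (by linarith) hH0
  obtain ⟨Af, hA1, hA2⟩ := HB ε₂ hε₂0 hε₂1 ℕ (fun _ : Fin 4 => range (5 * H)) (fun i => by
    simp only [card_range]
    push_cast
    linarith) _ (filter_subset _ _) hcount
  have hlt : ∀ g g' : Fin 4, g < g' → ∀ i j, Af g i < Af g' j ∧ Af g' j - Af g i ∈ B := by
    intro g g' hgg i j
    have h1 := (mem_filter.1 (hA2 (Function.update (fun _ => i) g' j))).2.1 g g' hgg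
    simp only [Function.update_self, Function.update_of_ne hgg.ne] at h1
    exact h1
  have hmod : ∀ g i, Af g i % 3 = 0 ∨ Af g i % 3 = c := fun g i =>
    (mem_filter.1 (hA2 (fun _ => i))).2.2 g
  choose em hem r hr using fun g => pig W K hW0 (Af g)
  obtain ⟨A, hA⟩ : ∃ A : Fin 4 → Fin K → ℕ, A = fun g i => Af g (em g i) := ⟨_, rfl⟩
  have hAv : ∀ g i, A g i = Af g (em g i) := fun g i => by rw [hA]
  have hlt' : ∀ g g' : Fin 4, g < g' → ∀ i j, A g i < A g' j ∧ A g' j - A g i ∈ B := by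
    intro g g' hgg i j
    rw [hAv, hAv]
    exact hlt g g' hgg _ _
  have hinjA : Function.Injective (fun z : Fin 4 × Fin K => A z.1 z.2) := by
    rintro ⟨g, i⟩ ⟨g', j⟩ h
    have h' : A g i = A g' j := h
    rcases lt_trichotomy g g' with hg | hg | hg
    · have := (hlt' g g' hg i j).1
      omega
    · subst hg
      rw [hAv, hAv] at h'
      rw [hem g (hA1 g h')]
    · have := (hlt' g' g hg j i).1
      omega
  obtain ⟨g, g', i, j, hne, hltt, hgap⟩ := HC N a hN h2 hsq ha b c hb hc A r hinjA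
    (fun g i => by rw [hAv, ← hW]; exact hr g i) (fun g i => by rw [hAv]; exact hmod _ _)
  rcases lt_trichotomy g g' with hg | hg | hg
  · have h1 := (hlt' g g' hg i j).2
    rw [hBdef, mem_filter] at h1
    exact h1.2 hgap
  · exact hne hg
  · have := (hlt' g' g hg j i).1
    omega

end Pool.Agent.Helper22K9
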